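import Mathlib

/-! Unit cubes touching the cube `[0,1]^3`: definitions and the basic geometry
used for upper bounds on the size of a smallest saturated configuration. -/

namespace Pool.Agent.Cube71

/-- Euclidean three-space. -/
abbrev E3 := EuclideanSpace ℝ (Fin 3)

/-- The cube `[0,1]^3`. -/
def C0 : Set E3 := {x | ∀ i, 0 ≤ x i ∧ x i ≤ 1}

/-- A unit cube: the image of `[0,1]^3` under an isometry of three-space. -/
def IsUnitCube (Q : Set E3) : Prop := ∃ f : E3 ≃ᵢ E3, Q = f '' C0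

/-- Two sets touch: disjoint interiors and nonempty intersection. -/
def Touch (P Q : Set E3) : Prop :=
  Disjoint (interior P) (interior Q) ∧ (P ∩ Q).Nonempty

/-- A saturated touching configuration around `[0,1]^3`: a finite family of unit
cubes, each touching `[0,1]^3`, with pairwise disjoint interiors, to which no further
unit cube touching `[0,1]^3` can be added. -/
structure IsSaturated (F : Set (Set E3)) : Prop where
  finite : F.Finite
  unit : ∀ P ∈ F, IsUnitCube P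
  touch : ∀ P ∈ F, Touch P C0
  disj : ∀ P ∈ F, ∀ P' ∈ F, P ≠ P' → Disjoint (interior P) (interior P')
  sat : ¬ ∃ Q : Set E3, IsUnitCube Q ∧ Q ∉ F ∧ Touch Q C0 ∧
    ∀ P ∈ F, Disjoint (interior Q) (interior P)

/-- The centre of `[0,1]^3`. -/
noncomputable def ctr : E3 := !₂[1/2, 1/2, 1/2]

/-- The point with given coordinates. -/
noncomputable def pt (x y z : ℝ) : E3 := !₂[x, y, z]

@[simp] lemma pt_zero (x y z : ℝ) : pt x y z 0 = x := by simp [pt]
@[simp] lemma pt_one (x y z : ℝ) : pt x y z 1 = y := by simp [pt]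
@[simp] lemma pt_two (x y z : ℝ) : pt x y z 2 = z := by simp [pt]
@[simp] lemma ctr_apply (i : Fin 3) : ctr i = 1/2 := by
  fin_cases i <;> simp [ctr]

lemma dist_sq (p q : E3) :
    dist p q ^ 2 = (p 0 - q 0) ^ 2 + (p 1 - q 1) ^ 2 + (p 2 - q 2) ^ 2 := by
  rw [EuclideanSpace.dist_eq, Real.sq_sqrt (by positivity)]
  simp [Fin.sum_univ_three, Real.dist_eq, sq_abs]

lemma abs_coord_le (p q : E3) (i : Fin 3) : |p i - q i| ≤ dist p q := by
  have h := dist_sq p q
  have h0 : 0 ≤ dist p q := dist_nonneg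
  apply abs_le_of_sq_le_sq _ h0
  fin_cases i <;> simp <;> nlinarith [sq_nonneg (p 0 - q 0), sq_nonneg (p 1 - q 1),
    sq_nonneg (p 2 - q 2)]

/-- Axis-parallel unit cube with smallest vertex `(a,b,c)`. -/
def A (a b c : ℝ) : Set E3 :=
  {x | (a ≤ x 0 ∧ x 0 ≤ a + 1) ∧ (b ≤ x 1 ∧ x 1 ≤ b + 1) ∧ (c ≤ x 2 ∧ x 2 ≤ c + 1)}

/-- Its open version. -/
def Ao (a b c : ℝ) : Set E3 :=
  {x | (a < x 0 ∧ x 0 < a + 1) ∧ (b < x 1 ∧ x 1 < b + 1) ∧ (c < x 2 ∧ x 2 < c + 1)}

lemma C0_eq : C0 = A 0 0 0 := by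
  ext x
  simp only [C0, A, Set.mem_ofPred_eq, Fin.forall_fin_succ, zero_add]
  simp

lemma isOpen_Ao (a b c : ℝ) : IsOpen (Ao a b c) := by
  have h : ∀ i : Fin 3, Continuous fun x : E3 => x i := fun i => by fun_prop
  refine ((isOpen_lt continuous_const (h 0)).inter
    (isOpen_lt (h 0) continuous_const)).inter
    (((isOpen_lt continuous_const (h 1)).inter (isOpen_lt (h 1) continuous_const)).inter
      ((isOpen_lt continuous_const (h 2)).inter (isOpen_lt (h 2) continuous_const)))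

lemma Ao_subset (a b c : ℝ) : Ao a b c ⊆ interior (A a b c) :=
  interior_maximal (fun _ h => ⟨⟨h.1.1.le, h.1.2.le⟩, ⟨h.2.1.1.le, h.2.1.2.le⟩,
    ⟨h.2.2.1.le, h.2.2.2.le⟩⟩) (isOpen_Ao a b c)

lemma interior_A_coord (a b c : ℝ) {x : E3} (hx : x ∈ interior (A a b c)) : x ∈ Ao a b c := by
  rw [mem_interior_iff_mem_nhds, Metric.mem_nhds_iff] at hx
  obtain ⟨e, he, hb⟩ := hx
  have key : ∀ (u v w : ℝ), u ^ 2 + v ^ 2 + w ^ 2 < e ^ 2 →
      pt (x 0 + u) (x 1 + v) (x 2 + w) ∈ A a b c := by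
    intro u v w h
    apply hb
    rw [Metric.mem_ball]
    apply lt_of_pow_lt_pow_left₀ 2 he.le
    rw [dist_sq]; simpa using h
  have e2 : (e / 2) ^ 2 < e ^ 2 := by nlinarith
  have h1 := key (e/2) 0 0 (by simpa using e2)
  have h2 := key (-(e/2)) 0 0 (by simpa using e2)
  have h3 := key 0 (e/2) 0 (by simpa using e2)
  have h4 := key 0 (-(e/2)) 0 (by simpa using e2)
  have h5 := key 0 0 (e/2) (by simpa using e2)
  have h6 := key 0 0 (-(e/2)) (by simpa using e2)
  simp only [A, Set.mem_ofPred_eq, pt_zero, pt_one, pt_two] at h1 h2 h3 h4 h5 h6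
  exact ⟨⟨by linarith [h2.1.1], by linarith [h1.1.2]⟩,
    ⟨by linarith [h4.2.1.1], by linarith [h3.2.1.2]⟩,
    ⟨by linarith [h6.2.2.1], by linarith [h5.2.2.2]⟩⟩

lemma interior_A (a b c : ℝ) : interior (A a b c) = Ao a b c :=
  Set.Subset.antisymm (fun _ h => interior_A_coord a b c h) (Ao_subset a b c)

lemma isUnitCube_A (a b c : ℝ) : IsUnitCube (A a b c) := by
  refine ⟨IsometryEquiv.addRight (pt a b c), ?_⟩
  ext x
  simp only [A, C0, Set.mem_ofPred_eq, Set.mem_image, IsometryEquiv.addRight_apply]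
  constructor
  · intro h
    refine ⟨x - pt a b c, ?_, by simp⟩
    intro i
    fin_cases i <;> simp <;> constructor <;> linarith [h.1.1, h.1.2, h.2.1.1, h.2.1.2, h.2.2.1,
      h.2.2.2]
  · rintro ⟨y, hy, rfl⟩
    have h0 := hy 0
    have h1 := hy 1
    have h2 := hy 2
    simp
    refine ⟨⟨?_, ?_⟩, ⟨?_, ?_⟩, ⟨?_, ?_⟩⟩ <;> linarith [h0.1, h0.2, h1.1, h1.2, h2.1, h2.2]

/-- A unit cube contains the ball of radius `1/2` about its centre in its interior. -/
lemma ball_subset {Q : Set E3} (f : E3 ≃ᵢ E3) (hQ : Q = f '' C0) :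
    Metric.ball (f ctr) (1/2) ⊆ interior Q := by
  apply interior_maximal _ Metric.isOpen_ball
  intro x hx
  rw [hQ]
  refine ⟨f.symm x, ?_, by simp⟩
  have h : dist (f.symm x) ctr < 1/2 := by
    rw [← f.dist_eq, f.apply_symm_apply]
    simpa using hx
  intro i
  have := abs_coord_le (f.symm x) ctr i
  rw [ctr_apply] at this
  have h3 := abs_le.1 (this.trans h.le)
  exact ⟨by linarith [h3.1], by linarith [h3.2]⟩

/-- A unit cube lies within `√3/2` of its centre. -/
lemma dist_sq_le {Q : Set E3} (f : E3 ≃ᵢ E3) (hQ : Q = f '' C0) {x : E3} (hx : x ∈ Q) :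
    dist x (f ctr) ^ 2 ≤ 3/4 := by
  rw [hQ] at hx
  obtain ⟨y, hy, rfl⟩ := hx
  rw [f.dist_eq, dist_sq]
  simp only [ctr_apply]
  have h0 := hy 0
  have h1 := hy 1
  have h2 := hy 2
  nlinarith [mul_nonneg h0.1 (sub_nonneg.2 h0.2), mul_nonneg h1.1 (sub_nonneg.2 h1.2),
    mul_nonneg h2.1 (sub_nonneg.2 h2.2)]

/-- If a point of an axis-parallel cube lies within distance less than `1/2` of the centre
of a unit cube, the interiors meet. -/
lemma meets_of_near {Q : Set E3} (f : E3 ≃ᵢ E3) (hQ : Q = f '' C0) (a b c : ℝ) {x : E3}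
    (hx : x ∈ A a b c) (hd : dist x (f ctr) < 1/2) :
    ¬ Disjoint (interior Q) (interior (A a b c)) := by
  have hcl : x ∈ closure (Ao a b c) := by
    rw [Metric.mem_closure_iff]
    intro e he
    set m : E3 := pt (a + 1/2) (b + 1/2) (c + 1/2) with hm
    set t : ℝ := min (e / 2) (1/2) with ht
    have ht0 : 0 < t := by positivity
    have ht1 : t < 1 := lt_of_le_of_lt (min_le_right _ _) (by norm_num)
    refine ⟨x + t • (m - x), ?_, ?_⟩
    · simp only [A, Set.mem_ofPred_eq] at hx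
      simp only [Ao, Set.mem_ofPred_eq, hm]
      simp
      obtain ⟨⟨h1, h2⟩, ⟨h3, h4⟩, ⟨h5, h6⟩⟩ := hx
      have g1 := mul_nonneg (sub_nonneg.2 ht1.le) (sub_nonneg.2 h1)
      have g2 := mul_nonneg (sub_nonneg.2 ht1.le) (sub_nonneg.2 h2)
      have g3 := mul_nonneg (sub_nonneg.2 ht1.le) (sub_nonneg.2 h3)
      have g4 := mul_nonneg (sub_nonneg.2 ht1.le) (sub_nonneg.2 h4)
      have g5 := mul_nonneg (sub_nonneg.2 ht1.le) (sub_nonneg.2 h5)
      have g6 := mul_nonneg (sub_nonneg.2 ht1.le) (sub_nonneg.2 h6)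
      refine ⟨⟨?_, ?_⟩, ⟨?_, ?_⟩, ⟨?_, ?_⟩⟩ <;> nlinarith
    · have hmx : dist m x < 1 := by
        apply lt_of_pow_lt_pow_left₀ 2 (by norm_num)
        rw [dist_sq, hm]
        simp only [A, Set.mem_ofPred_eq] at hx
        simp only [pt_zero, pt_one, pt_two]
        obtain ⟨⟨h1, h2⟩, ⟨h3, h4⟩, ⟨h5, h6⟩⟩ := hx
        nlinarith [mul_nonneg (sub_nonneg.2 h1) (sub_nonneg.2 h2),
          mul_nonneg (sub_nonneg.2 h3) (sub_nonneg.2 h4),
          mul_nonneg (sub_nonneg.2 h5) (sub_nonneg.2 h6)]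
      rw [dist_eq_norm]
      have : x - (x + t • (m - x)) = - (t • (m - x)) := by abel
      rw [this, norm_neg, norm_smul, Real.norm_eq_abs, abs_of_pos ht0, ← dist_eq_norm]
      calc t * dist m x ≤ (e/2) * 1 := by
            apply mul_le_mul (min_le_left _ _) hmx.le dist_nonneg (by positivity)
        _ < e := by linarith
  have hball : x ∈ Metric.ball (f ctr) (1/2) := hd
  obtain ⟨y, hy1, hy2⟩ := mem_closure_iff.1 hcl _ Metric.isOpen_ball hball
  rw [Set.not_disjoint_iff]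
  exact ⟨y, ball_subset f hQ hy1, Ao_subset a b c hy2⟩

end Pool.Agent.Cube71
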