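import Pool.Agent.Cube71.Frame
import Pool.Agent.Cube71.Cert.P0
import Pool.Agent.Cube71.Cert.P1
import Pool.Agent.Cube71.Cert.P2
import Pool.Agent.Cube71.Cert.P3
import Pool.Agent.Cube71.Cert.P4
import Pool.Agent.Cube71.Cert.P5
import Pool.Agent.Cube71.Cert.P6
import Pool.Agent.Cube71.Cert.P7
import Pool.Agent.Cube71.Cert.P8
import Pool.Agent.Cube71.Cert.P9

/-! Every unit cube touching the central cube in a suitable way meets one of the cubes. -/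

namespace Pool.Agent.Cube71

open Matrix Finset

lemma uf {x : ℝ} (h : x = 1 / 2) : In 128 0 (256 * x) := by
  subst h; constructor <;> norm_num

lemma ur {x : ℝ} (h : 0 ≤ x) (h' : |x| ≤ 1 / 2) : In 0 64 (256 * x) := by
  rw [abs_of_nonneg h] at h'
  constructor <;> push_cast <;> linarith

lemma vp {x : ℝ} (h : x = 1 / 2) : In 256 0 (256 * x + 128) := by
  subst h; constructor <;> norm_num

lemma vm {x : ℝ} (h : x = -(1 / 2)) : In 0 0 (256 * x + 128) := by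
  subst h; constructor <;> norm_num

lemma vr {x : ℝ} (h : |x| ≤ 1 / 2) : In 0 128 (256 * x + 128) := by
  rw [abs_le] at h
  constructor <;> push_cast <;> linarith [h.1, h.2]

lemma ia {x : ℝ} (h : |x| ≤ 3456) : In 4736 3456 (x + 8192) := by
  rw [abs_le] at h
  constructor <;> push_cast <;> linarith [h.1, h.2]

lemma half_cases {x : ℝ} (h : |x| = 1 / 2) : x = 1 / 2 ∨ x = -(1 / 2) :=
  eq_or_eq_neg_of_abs_eq h

lemma all_charts {a1 a2 a3 u0 u1 u2 v0 v1 v2 : ℝ} (ha1 : |a1| ≤ 3456) (ha2 : |a2| ≤ 3456)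
    (ha3 : |a3| ≤ 3456) (hu0 : |u0| ≤ 1 / 2) (hu1 : |u1| ≤ 1 / 2) (hu2 : |u2| ≤ 1 / 2)
    (p0 : 0 ≤ u0) (p1 : 0 ≤ u1) (p2 : 0 ≤ u2) (hw : u1 ≤ u0)
    (hv0 : |v0| ≤ 1 / 2) (hv1 : |v1| ≤ 1 / 2) (hv2 : |v2| ≤ 1 / 2)
    (h : (u0 = 1 / 2 ∧ u1 = 1 / 2 ∧ u2 = 1 / 2 ∧ (|v0| = 1 / 2 ∨ |v1| = 1 / 2 ∨ |v2| = 1 / 2)) ∨
      (u0 = 1 / 2 ∧ u1 = 1 / 2 ∧ ((|v1| = 1 / 2 ∧ |v2| = 1 / 2) ∨ (|v0| = 1 / 2 ∧ |v2| = 1 / 2) ∨
        (|v0| = 1 / 2 ∧ |v1| = 1 / 2))) ∨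
      (u0 = 1 / 2 ∧ u2 = 1 / 2 ∧ ((|v1| = 1 / 2 ∧ |v2| = 1 / 2) ∨ (|v0| = 1 / 2 ∧ |v2| = 1 / 2) ∨
        (|v0| = 1 / 2 ∧ |v1| = 1 / 2))) ∨
      (u2 = 1 / 2 ∧ |v0| = 1 / 2 ∧ |v1| = 1 / 2 ∧ |v2| = 1 / 2) ∨
      (u0 = 1 / 2 ∧ |v0| = 1 / 2 ∧ |v1| = 1 / 2 ∧ |v2| = 1 / 2)) :
    Killed a1 a2 a3 (256 * u0) (256 * u1) (256 * u2) (256 * v0) (256 * v1) (256 * v2) := by
  have hb : (4736 : ℕ) + 2 * 3456 ≤ 16384 := by norm_num
  have n0 : 256 * v0 ≤ 128 := by linarith [(abs_le.1 hv0).2]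
  have n1 : 256 * v1 ≤ 128 := by linarith [(abs_le.1 hv1).2]
  have n2 : 256 * v2 ≤ 128 := by linarith [(abs_le.1 hv2).2]
  have hw' : 256 * u1 ≤ 256 * u0 := by linarith
  rcases h with ⟨e0, e1, e2, c0 | c1 | c2⟩ | ⟨e0, e1, ⟨c1, c2⟩ | ⟨c0, c2⟩ | ⟨c0, c1⟩⟩ |
    ⟨e0, e2, ⟨c1, c2⟩ | ⟨c0, c2⟩ | ⟨c0, c1⟩⟩ | ⟨e2, c0, c1, c2⟩ | ⟨e0, c0, c1, c2⟩
  · rcases half_cases c0 with c0 | c0
    · obtain ⟨t, ht⟩ := cert_1
      exact chk_sound t hb hb hb (ia ha1) (ia ha2) (ia ha3) (uf e0) (uf e1) (uf e2) (vp c0) (vr hv1) (vr hv2)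
        n0 n1 n2 hw' ht
    · obtain ⟨t, ht⟩ := cert_0
      exact chk_sound t hb hb hb (ia ha1) (ia ha2) (ia ha3) (uf e0) (uf e1) (uf e2) (vm c0) (vr hv1) (vr hv2)
        n0 n1 n2 hw' ht
  · rcases half_cases c1 with c1 | c1
    · obtain ⟨t, ht⟩ := cert_3
      exact chk_sound t hb hb hb (ia ha1) (ia ha2) (ia ha3) (uf e0) (uf e1) (uf e2) (vr hv0) (vp c1) (vr hv2)
        n0 n1 n2 hw' ht
    · obtain ⟨t, ht⟩ := cert_2
      exact chk_sound t hb hb hb (ia ha1) (ia ha2) (ia ha3) (uf e0) (uf e1) (uf e2) (vr hv0) (vm c1) (vr hv2)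
        n0 n1 n2 hw' ht
  · rcases half_cases c2 with c2 | c2
    · obtain ⟨t, ht⟩ := cert_5
      exact chk_sound t hb hb hb (ia ha1) (ia ha2) (ia ha3) (uf e0) (uf e1) (uf e2) (vr hv0) (vr hv1) (vp c2)
        n0 n1 n2 hw' ht
    · obtain ⟨t, ht⟩ := cert_4
      exact chk_sound t hb hb hb (ia ha1) (ia ha2) (ia ha3) (uf e0) (uf e1) (uf e2) (vr hv0) (vr hv1) (vm c2)
        n0 n1 n2 hw' ht
  · rcases half_cases c1 with c1 | c1
    · rcases half_cases c2 with c2 | c2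
      · obtain ⟨t, ht⟩ := cert_9
        exact chk_sound t hb hb hb (ia ha1) (ia ha2) (ia ha3) (uf e0) (uf e1) (ur p2 hu2) (vr hv0) (vp c1) (vp c2)
          n0 n1 n2 hw' ht
      · obtain ⟨t, ht⟩ := cert_7
        exact chk_sound t hb hb hb (ia ha1) (ia ha2) (ia ha3) (uf e0) (uf e1) (ur p2 hu2) (vr hv0) (vp c1) (vm c2)
          n0 n1 n2 hw' ht
    · rcases half_cases c2 with c2 | c2
      · obtain ⟨t, ht⟩ := cert_8
        exact chk_sound t hb hb hb (ia ha1) (ia ha2) (ia ha3) (uf e0) (uf e1) (ur p2 hu2) (vr hv0) (vm c1) (vp c2)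
          n0 n1 n2 hw' ht
      · obtain ⟨t, ht⟩ := cert_6
        exact chk_sound t hb hb hb (ia ha1) (ia ha2) (ia ha3) (uf e0) (uf e1) (ur p2 hu2) (vr hv0) (vm c1) (vm c2)
          n0 n1 n2 hw' ht
  · rcases half_cases c0 with c0 | c0
    · rcases half_cases c2 with c2 | c2
      · obtain ⟨t, ht⟩ := cert_13
        exact chk_sound t hb hb hb (ia ha1) (ia ha2) (ia ha3) (uf e0) (uf e1) (ur p2 hu2) (vp c0) (vr hv1) (vp c2)
          n0 n1 n2 hw' ht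
      · obtain ⟨t, ht⟩ := cert_11
        exact chk_sound t hb hb hb (ia ha1) (ia ha2) (ia ha3) (uf e0) (uf e1) (ur p2 hu2) (vp c0) (vr hv1) (vm c2)
          n0 n1 n2 hw' ht
    · rcases half_cases c2 with c2 | c2
      · obtain ⟨t, ht⟩ := cert_12
        exact chk_sound t hb hb hb (ia ha1) (ia ha2) (ia ha3) (uf e0) (uf e1) (ur p2 hu2) (vm c0) (vr hv1) (vp c2)
          n0 n1 n2 hw' ht
      · obtain ⟨t, ht⟩ := cert_10
        exact chk_sound t hb hb hb (ia ha1) (ia ha2) (ia ha3) (uf e0) (uf e1) (ur p2 hu2) (vm c0) (vr hv1) (vm c2)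
          n0 n1 n2 hw' ht
  · rcases half_cases c0 with c0 | c0
    · rcases half_cases c1 with c1 | c1
      · obtain ⟨t, ht⟩ := cert_17
        exact chk_sound t hb hb hb (ia ha1) (ia ha2) (ia ha3) (uf e0) (uf e1) (ur p2 hu2) (vp c0) (vp c1) (vr hv2)
          n0 n1 n2 hw' ht
      · obtain ⟨t, ht⟩ := cert_15
        exact chk_sound t hb hb hb (ia ha1) (ia ha2) (ia ha3) (uf e0) (uf e1) (ur p2 hu2) (vp c0) (vm c1) (vr hv2)
          n0 n1 n2 hw' ht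
    · rcases half_cases c1 with c1 | c1
      · obtain ⟨t, ht⟩ := cert_16
        exact chk_sound t hb hb hb (ia ha1) (ia ha2) (ia ha3) (uf e0) (uf e1) (ur p2 hu2) (vm c0) (vp c1) (vr hv2)
          n0 n1 n2 hw' ht
      · obtain ⟨t, ht⟩ := cert_14
        exact chk_sound t hb hb hb (ia ha1) (ia ha2) (ia ha3) (uf e0) (uf e1) (ur p2 hu2) (vm c0) (vm c1) (vr hv2)
          n0 n1 n2 hw' ht
  · rcases half_cases c1 with c1 | c1
    · rcases half_cases c2 with c2 | c2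
      · obtain ⟨t, ht⟩ := cert_21
        exact chk_sound t hb hb hb (ia ha1) (ia ha2) (ia ha3) (uf e0) (ur p1 hu1) (uf e2) (vr hv0) (vp c1) (vp c2)
          n0 n1 n2 hw' ht
      · obtain ⟨t, ht⟩ := cert_19
        exact chk_sound t hb hb hb (ia ha1) (ia ha2) (ia ha3) (uf e0) (ur p1 hu1) (uf e2) (vr hv0) (vp c1) (vm c2)
          n0 n1 n2 hw' ht
    · rcases half_cases c2 with c2 | c2
      · obtain ⟨t, ht⟩ := cert_20
        exact chk_sound t hb hb hb (ia ha1) (ia ha2) (ia ha3) (uf e0) (ur p1 hu1) (uf e2) (vr hv0) (vm c1) (vp c2)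
          n0 n1 n2 hw' ht
      · obtain ⟨t, ht⟩ := cert_18
        exact chk_sound t hb hb hb (ia ha1) (ia ha2) (ia ha3) (uf e0) (ur p1 hu1) (uf e2) (vr hv0) (vm c1) (vm c2)
          n0 n1 n2 hw' ht
  · rcases half_cases c0 with c0 | c0
    · rcases half_cases c2 with c2 | c2
      · obtain ⟨t, ht⟩ := cert_25
        exact chk_sound t hb hb hb (ia ha1) (ia ha2) (ia ha3) (uf e0) (ur p1 hu1) (uf e2) (vp c0) (vr hv1) (vp c2)
          n0 n1 n2 hw' ht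
      · obtain ⟨t, ht⟩ := cert_23
        exact chk_sound t hb hb hb (ia ha1) (ia ha2) (ia ha3) (uf e0) (ur p1 hu1) (uf e2) (vp c0) (vr hv1) (vm c2)
          n0 n1 n2 hw' ht
    · rcases half_cases c2 with c2 | c2
      · obtain ⟨t, ht⟩ := cert_24
        exact chk_sound t hb hb hb (ia ha1) (ia ha2) (ia ha3) (uf e0) (ur p1 hu1) (uf e2) (vm c0) (vr hv1) (vp c2)
          n0 n1 n2 hw' ht
      · obtain ⟨t, ht⟩ := cert_22
        exact chk_sound t hb hb hb (ia ha1) (ia ha2) (ia ha3) (uf e0) (ur p1 hu1) (uf e2) (vm c0) (vr hv1) (vm c2)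
          n0 n1 n2 hw' ht
  · rcases half_cases c0 with c0 | c0
    · rcases half_cases c1 with c1 | c1
      · obtain ⟨t, ht⟩ := cert_29
        exact chk_sound t hb hb hb (ia ha1) (ia ha2) (ia ha3) (uf e0) (ur p1 hu1) (uf e2) (vp c0) (vp c1) (vr hv2)
          n0 n1 n2 hw' ht
      · obtain ⟨t, ht⟩ := cert_27
        exact chk_sound t hb hb hb (ia ha1) (ia ha2) (ia ha3) (uf e0) (ur p1 hu1) (uf e2) (vp c0) (vm c1) (vr hv2)
          n0 n1 n2 hw' ht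
    · rcases half_cases c1 with c1 | c1
      · obtain ⟨t, ht⟩ := cert_28
        exact chk_sound t hb hb hb (ia ha1) (ia ha2) (ia ha3) (uf e0) (ur p1 hu1) (uf e2) (vm c0) (vp c1) (vr hv2)
          n0 n1 n2 hw' ht
      · obtain ⟨t, ht⟩ := cert_26
        exact chk_sound t hb hb hb (ia ha1) (ia ha2) (ia ha3) (uf e0) (ur p1 hu1) (uf e2) (vm c0) (vm c1) (vr hv2)
          n0 n1 n2 hw' ht
  · rcases half_cases c0 with c0 | c0
    · rcases half_cases c1 with c1 | c1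
      · rcases half_cases c2 with c2 | c2
        · obtain ⟨t, ht⟩ := cert_44
          exact chk_sound t hb hb hb (ia ha1) (ia ha2) (ia ha3) (ur p0 hu0) (ur p1 hu1) (uf e2) (vp c0) (vp c1) (vp c2)
            n0 n1 n2 hw' ht
        · obtain ⟨t, ht⟩ := cert_36
          exact chk_sound t hb hb hb (ia ha1) (ia ha2) (ia ha3) (ur p0 hu0) (ur p1 hu1) (uf e2) (vp c0) (vp c1) (vm c2)
            n0 n1 n2 hw' ht
      · rcases half_cases c2 with c2 | c2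
        · obtain ⟨t, ht⟩ := cert_40
          exact chk_sound t hb hb hb (ia ha1) (ia ha2) (ia ha3) (ur p0 hu0) (ur p1 hu1) (uf e2) (vp c0) (vm c1) (vp c2)
            n0 n1 n2 hw' ht
        · obtain ⟨t, ht⟩ := cert_32
          exact chk_sound t hb hb hb (ia ha1) (ia ha2) (ia ha3) (ur p0 hu0) (ur p1 hu1) (uf e2) (vp c0) (vm c1) (vm c2)
            n0 n1 n2 hw' ht
    · rcases half_cases c1 with c1 | c1
      · rcases half_cases c2 with c2 | c2
        · obtain ⟨t, ht⟩ := cert_42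
          exact chk_sound t hb hb hb (ia ha1) (ia ha2) (ia ha3) (ur p0 hu0) (ur p1 hu1) (uf e2) (vm c0) (vp c1) (vp c2)
            n0 n1 n2 hw' ht
        · obtain ⟨t, ht⟩ := cert_34
          exact chk_sound t hb hb hb (ia ha1) (ia ha2) (ia ha3) (ur p0 hu0) (ur p1 hu1) (uf e2) (vm c0) (vp c1) (vm c2)
            n0 n1 n2 hw' ht
      · rcases half_cases c2 with c2 | c2
        · obtain ⟨t, ht⟩ := cert_38
          exact chk_sound t hb hb hb (ia ha1) (ia ha2) (ia ha3) (ur p0 hu0) (ur p1 hu1) (uf e2) (vm c0) (vm c1) (vp c2)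
            n0 n1 n2 hw' ht
        · obtain ⟨t, ht⟩ := cert_30
          exact chk_sound t hb hb hb (ia ha1) (ia ha2) (ia ha3) (ur p0 hu0) (ur p1 hu1) (uf e2) (vm c0) (vm c1) (vm c2)
            n0 n1 n2 hw' ht
  · rcases half_cases c0 with c0 | c0
    · rcases half_cases c1 with c1 | c1
      · rcases half_cases c2 with c2 | c2
        · obtain ⟨t, ht⟩ := cert_45
          exact chk_sound t hb hb hb (ia ha1) (ia ha2) (ia ha3) (uf e0) (ur p1 hu1) (ur p2 hu2) (vp c0) (vp c1) (vp c2)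
            n0 n1 n2 hw' ht
        · obtain ⟨t, ht⟩ := cert_37
          exact chk_sound t hb hb hb (ia ha1) (ia ha2) (ia ha3) (uf e0) (ur p1 hu1) (ur p2 hu2) (vp c0) (vp c1) (vm c2)
            n0 n1 n2 hw' ht
      · rcases half_cases c2 with c2 | c2
        · obtain ⟨t, ht⟩ := cert_41
          exact chk_sound t hb hb hb (ia ha1) (ia ha2) (ia ha3) (uf e0) (ur p1 hu1) (ur p2 hu2) (vp c0) (vm c1) (vp c2)
            n0 n1 n2 hw' ht
        · obtain ⟨t, ht⟩ := cert_33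
          exact chk_sound t hb hb hb (ia ha1) (ia ha2) (ia ha3) (uf e0) (ur p1 hu1) (ur p2 hu2) (vp c0) (vm c1) (vm c2)
            n0 n1 n2 hw' ht
    · rcases half_cases c1 with c1 | c1
      · rcases half_cases c2 with c2 | c2
        · obtain ⟨t, ht⟩ := cert_43
          exact chk_sound t hb hb hb (ia ha1) (ia ha2) (ia ha3) (uf e0) (ur p1 hu1) (ur p2 hu2) (vm c0) (vp c1) (vp c2)
            n0 n1 n2 hw' ht
        · obtain ⟨t, ht⟩ := cert_35
          exact chk_sound t hb hb hb (ia ha1) (ia ha2) (ia ha3) (uf e0) (ur p1 hu1) (ur p2 hu2) (vm c0) (vp c1) (vm c2)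
            n0 n1 n2 hw' ht
      · rcases half_cases c2 with c2 | c2
        · obtain ⟨t, ht⟩ := cert_39
          exact chk_sound t hb hb hb (ia ha1) (ia ha2) (ia ha3) (uf e0) (ur p1 hu1) (ur p2 hu2) (vm c0) (vm c1) (vp c2)
            n0 n1 n2 hw' ht
        · obtain ⟨t, ht⟩ := cert_31
          exact chk_sound t hb hb hb (ia ha1) (ia ha2) (ia ha3) (uf e0) (ur p1 hu1) (ur p2 hu2) (vm c0) (vm c1) (vm c2)
            n0 n1 n2 hw' ht

end Pool.Agent.Cube71
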