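import Pool.Agent.Cube71.Basic

/-! The kernel checker for the six cube configuration. All numbers are naturals, signed
quantities are differences of two naturals. Lengths are scaled by 256, the rotation
parameters by 8192. -/

namespace Pool.Agent.Cube71

/-- certificate trees: `x` excluded cell, `k w` cell killed by the witness point coded by `w`,
`s d l r` cell split in the coordinate `d`. -/
inductive T : Type
  | x : T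
  | k (w : ℕ) : T
  | s (d : ℕ) (l r : T) : T

/-- distance of two naturals -/
def df (p n : ℕ) : ℕ := Nat.add (Nat.sub p n) (Nat.sub n p)

/-- One of the six inequalities. -/
def side (tp tn gp gn bp bn cp cn a1 a2 a3 h1 h2 h3 w y be D e : ℕ) : Bool :=
  Nat.blt
    (Nat.add (Nat.add tn e) (Nat.add
      (Nat.mul 2 (Nat.add (Nat.add
        (Nat.mul (df (Nat.add gp (Nat.mul be a1)) (Nat.add gn (Nat.mul be 8192))) h1)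
        (Nat.mul (df (Nat.add bp (Nat.mul be a2)) (Nat.add bn (Nat.mul be 8192))) h2))
        (Nat.mul (df (Nat.add cp (Nat.mul be a3)) (Nat.add cn (Nat.mul be 8192))) h3)))
      (Nat.add (Nat.mul (Nat.sub y (Nat.add be w)) (Nat.mul h1 h1))
        (Nat.mul (Nat.sub w (Nat.add be y)) (Nat.add (Nat.mul h2 h2) (Nat.mul h3 h3))))))
    (Nat.add tp (Nat.mul be D))

/-- Both inequalities, given the value `(tp, tn)` and the error term `e`. -/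
def face2 (tp tn e gp gn bp bn cp cn a1 a2 a3 h1 h2 h3 w y lo l D : ℕ) : Bool :=
  side tp tn gp gn bp bn cp cn a1 a2 a3 h1 h2 h3 w y lo D e &&
  side tn tp gn gp bn bp cn cp a1 a2 a3 h1 h2 h3 y w
      (Nat.sub 256 (Nat.add lo (Nat.mul 2 l))) D e

/-- Bound for the influence of the contact point. -/
def dU (a1 a2 a3 k1 k2 k3 D G : ℕ) : ℕ :=
  Nat.add (Nat.add
    (cond (Nat.beq k1 0) 0 (Nat.mul k1 (Nat.add (df (Nat.add 268435456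
      (Nat.mul 2 (Nat.mul a1 a1))) (Nat.add D (Nat.mul 32768 a1))) G)))
    (cond (Nat.beq k2 0) 0 (Nat.mul k2 (Nat.add (Nat.mul 2 (df (Nat.add (Nat.mul a1 a2)
      (Nat.mul 8192 a3)) (Nat.mul 8192 (Nat.add a1 a2)))) G))))
    (cond (Nat.beq k3 0) 0 (Nat.mul k3 (Nat.add (Nat.mul 2 (df (Nat.add (Nat.mul a1 a3)
      134217728) (Nat.mul 8192 (Nat.add (Nat.add a1 a2) a3)))) G)))

/-- Both inequalities for one face direction. -/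
def face (gp gn bp bn cp cn kp kn a1 a2 a3 h1 h2 h3 k1 k2 k3 w y z2 z3 lo l D G : ℕ) : Bool :=
  face2
    (Nat.add (Nat.add (Nat.mul 134217728 w) (Nat.mul D y))
      (Nat.add (Nat.mul 2 (Nat.add (Nat.mul a1 gp) (Nat.mul 8192 gn))) (Nat.mul 16384 kp)))
    (Nat.add (Nat.add (Nat.mul 134217728 y) (Nat.mul D w))
      (Nat.add (Nat.mul 2 (Nat.add (Nat.mul a1 gn) (Nat.mul 8192 gp))) (Nat.mul 16384 kn)))
    (Nat.add (Nat.mul (Nat.mul 2 h1) (Nat.add (Nat.mul h2 z2) (Nat.mul h3 z3)))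
      (dU a1 a2 a3 k1 k2 k3 D G))
    gp gn bp bn cp cn a1 a2 a3 h1 h2 h3 w y lo l D

/-- All six inequalities, third stage. -/
def kill3 (a1 a2 a3 h1 h2 h3 k1 k2 k3 w1 w2 w3 y1 y2 y3 v1 l1 v2 l2 v3 l3
    D G gp gn c1p c1n c2p c2n c3p c3n z1 z2 z3 b1p b1n b2p b2n b3p b3n : ℕ) : Bool :=
  face gp gn b3n b3p b2p b2n c1p c1n a1 a2 a3 h1 h2 h3 k1 k2 k3 w1 y1 z2 z3 v1 l1 D G &&
  face gp gn b1n b1p b3p b3n c2p c2n a2 a3 a1 h2 h3 h1 k2 k3 k1 w2 y2 z3 z1 v2 l2 D G &&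
  face gp gn b2n b2p b1p b1n c3p c3n a3 a1 a2 h3 h1 h2 k3 k1 k2 w3 y3 z1 z2 v3 l3 D G

/-- Second stage. -/
def kill2 (a1 a2 a3 h1 h2 h3 k1 k2 k3 w1 w2 w3 y1 y2 y3 v1 l1 v2 l2 v3 l3
    D G gp gn c1p c1n c2p c2n c3p c3n : ℕ) : Bool :=
  kill3 a1 a2 a3 h1 h2 h3 k1 k2 k3 w1 w2 w3 y1 y2 y3 v1 l1 v2 l2 v3 l3
    D G gp gn c1p c1n c2p c2n c3p c3n (df w1 y1) (df w2 y2) (df w3 y3)
    (Nat.add c1p (Nat.mul 8192 w1)) (Nat.add c1n (Nat.mul 8192 y1))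
    (Nat.add c2p (Nat.mul 8192 w2)) (Nat.add c2n (Nat.mul 8192 y2))
    (Nat.add c3p (Nat.mul 8192 w3)) (Nat.add c3n (Nat.mul 8192 y3))

/-- First stage. -/
def kill1 (a1 a2 a3 h1 h2 h3 k1 k2 k3 w1 w2 w3 y1 y2 y3 v1 l1 v2 l2 v3 l3 : ℕ) : Bool :=
  kill2 a1 a2 a3 h1 h2 h3 k1 k2 k3 w1 w2 w3 y1 y2 y3 v1 l1 v2 l2 v3 l3
    (Nat.sub (Nat.add (Nat.add (Nat.add (Nat.mul a1 a1) (Nat.mul a2 a2)) (Nat.mul a3 a3))
      268435456) (Nat.mul 16384 (Nat.add (Nat.add a1 a2) a3)))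
    (Nat.add (Nat.mul 16384 (Nat.add (Nat.add h1 h2) h3))
      (Nat.add (Nat.add (Nat.mul h1 h1) (Nat.mul h2 h2)) (Nat.mul h3 h3)))
    (Nat.add (Nat.add (Nat.add (Nat.mul a1 w1) (Nat.mul a2 w2)) (Nat.mul a3 w3))
      (Nat.mul 8192 (Nat.add (Nat.add y1 y2) y3)))
    (Nat.add (Nat.add (Nat.add (Nat.mul a1 y1) (Nat.mul a2 y2)) (Nat.mul a3 y3))
      (Nat.mul 8192 (Nat.add (Nat.add w1 w2) w3)))
    (Nat.add (Nat.add (Nat.mul w2 a3) (Nat.mul y3 a2)) (Nat.mul 8192 (Nat.add y2 w3)))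
    (Nat.add (Nat.add (Nat.mul y2 a3) (Nat.mul w3 a2)) (Nat.mul 8192 (Nat.add w2 y3)))
    (Nat.add (Nat.add (Nat.mul w3 a1) (Nat.mul y1 a3)) (Nat.mul 8192 (Nat.add y3 w1)))
    (Nat.add (Nat.add (Nat.mul y3 a1) (Nat.mul w1 a3)) (Nat.mul 8192 (Nat.add w3 y1)))
    (Nat.add (Nat.add (Nat.mul w1 a2) (Nat.mul y2 a1)) (Nat.mul 8192 (Nat.add y1 w2)))
    (Nat.add (Nat.add (Nat.mul y1 a2) (Nat.mul w2 a1)) (Nat.mul 8192 (Nat.add w1 y2)))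

/-- membership of the point with coordinates `± x, ± y, ± z` (scaled by 256) in the union of
the central cube and the six cubes -/
def mem3 (x y z : ℕ) : Bool :=
  (Nat.ble x 128 && Nat.ble y 128 && Nat.ble z 128) ||
  (Nat.ble 128 z && Nat.ble z 384 &&
    Nat.ble (Nat.mul 2 (Nat.mul (Nat.add x y) (Nat.add x y))) 65536) ||
  (Nat.ble (df (Nat.add x y) 512) 256 &&
    Nat.ble (Nat.mul 2 (Nat.mul (df x y) (df x y))) 65536 &&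
    Nat.ble (Nat.mul 2 (Nat.mul z z)) (Nat.mul (Nat.sub 256 (df (Nat.add x y) 512))
      (Nat.sub 256 (df (Nat.add x y) 512))))

/-- check of a killed cell -/
def kill (w1 w2 w3 p1 h1 p2 h2 p3 h3 u1 k1 u2 k2 u3 k3 v1 l1 v2 l2 v3 l3 : ℕ) : Bool :=
  mem3 (df w1 1024) (df w2 1024) (df w3 1024) &&
  kill1 (Nat.add p1 h1) (Nat.add p2 h2) (Nat.add p3 h3) h1 h2 h3 k1 k2 k3 w1 w2 w3
    (Nat.add 1024 (Nat.add u1 k1)) (Nat.add 1024 (Nat.add u2 k2)) (Nat.add 1024 (Nat.add u3 k3))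
    v1 l1 v2 l2 v3 l3

/-- The checker. The cell is given by lower ends and half widths of nine intervals:
`p_i, h_i` for the rotation parameters, `u_i, k_i` for the contact point in the central cube,
`v_i, l_i` for the contact point in the moving cube. -/
noncomputable def chk (t : T) : ℕ → ℕ → ℕ → ℕ → ℕ → ℕ → ℕ → ℕ → ℕ → ℕ → ℕ → ℕ → ℕ → ℕ → ℕ → ℕ →
    ℕ → ℕ → Bool :=
  T.rec (motive := fun _ => ℕ → ℕ → ℕ → ℕ → ℕ → ℕ → ℕ → ℕ → ℕ → ℕ → ℕ → ℕ → ℕ → ℕ → ℕ → ℕ →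
    ℕ → ℕ → Bool)
    (fun _ _ _ _ _ _ u1 k1 u2 _ _ _ _ _ _ _ _ _ =>
      Nat.blt (Nat.add u1 (Nat.mul 2 k1)) u2)
    (fun w p1 h1 p2 h2 p3 h3 u1 k1 u2 k2 u3 k3 v1 l1 v2 l2 v3 l3 =>
      kill (Nat.mod w 2048) (Nat.mod (Nat.div w 2048) 2048) (Nat.div w 4194304)
        p1 h1 p2 h2 p3 h3 u1 k1 u2 k2 u3 k3 v1 l1 v2 l2 v3 l3)
    (fun d _ _ L R p1 h1 p2 h2 p3 h3 u1 k1 u2 k2 u3 k3 v1 l1 v2 l2 v3 l3 =>
      cond (Nat.beq d 0)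
        (L p1 (Nat.div h1 2) p2 h2 p3 h3 u1 k1 u2 k2 u3 k3 v1 l1 v2 l2 v3 l3 &&
         R (Nat.add p1 (Nat.mul 2 (Nat.div h1 2))) (Nat.sub h1 (Nat.div h1 2))
            p2 h2 p3 h3 u1 k1 u2 k2 u3 k3 v1 l1 v2 l2 v3 l3)
      (cond (Nat.beq d 1)
        (L p1 h1 p2 (Nat.div h2 2) p3 h3 u1 k1 u2 k2 u3 k3 v1 l1 v2 l2 v3 l3 &&
         R p1 h1 (Nat.add p2 (Nat.mul 2 (Nat.div h2 2))) (Nat.sub h2 (Nat.div h2 2))
            p3 h3 u1 k1 u2 k2 u3 k3 v1 l1 v2 l2 v3 l3)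
      (cond (Nat.beq d 2)
        (L p1 h1 p2 h2 p3 (Nat.div h3 2) u1 k1 u2 k2 u3 k3 v1 l1 v2 l2 v3 l3 &&
         R p1 h1 p2 h2 (Nat.add p3 (Nat.mul 2 (Nat.div h3 2))) (Nat.sub h3 (Nat.div h3 2))
            u1 k1 u2 k2 u3 k3 v1 l1 v2 l2 v3 l3)
      (cond (Nat.beq d 3)
        (L p1 h1 p2 h2 p3 h3 u1 (Nat.div k1 2) u2 k2 u3 k3 v1 l1 v2 l2 v3 l3 &&
         R p1 h1 p2 h2 p3 h3 (Nat.add u1 (Nat.mul 2 (Nat.div k1 2))) (Nat.sub k1 (Nat.div k1 2))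
            u2 k2 u3 k3 v1 l1 v2 l2 v3 l3)
      (cond (Nat.beq d 4)
        (L p1 h1 p2 h2 p3 h3 u1 k1 u2 (Nat.div k2 2) u3 k3 v1 l1 v2 l2 v3 l3 &&
         R p1 h1 p2 h2 p3 h3 u1 k1 (Nat.add u2 (Nat.mul 2 (Nat.div k2 2)))
            (Nat.sub k2 (Nat.div k2 2)) u3 k3 v1 l1 v2 l2 v3 l3)
      (cond (Nat.beq d 5)
        (L p1 h1 p2 h2 p3 h3 u1 k1 u2 k2 u3 (Nat.div k3 2) v1 l1 v2 l2 v3 l3 &&
         R p1 h1 p2 h2 p3 h3 u1 k1 u2 k2 (Nat.add u3 (Nat.mul 2 (Nat.div k3 2)))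
            (Nat.sub k3 (Nat.div k3 2)) v1 l1 v2 l2 v3 l3)
      (cond (Nat.beq d 6)
        (L p1 h1 p2 h2 p3 h3 u1 k1 u2 k2 u3 k3 v1 (Nat.div l1 2) v2 l2 v3 l3 &&
         R p1 h1 p2 h2 p3 h3 u1 k1 u2 k2 u3 k3 (Nat.add v1 (Nat.mul 2 (Nat.div l1 2)))
            (Nat.sub l1 (Nat.div l1 2)) v2 l2 v3 l3)
      (cond (Nat.beq d 7)
        (L p1 h1 p2 h2 p3 h3 u1 k1 u2 k2 u3 k3 v1 l1 v2 (Nat.div l2 2) v3 l3 &&
         R p1 h1 p2 h2 p3 h3 u1 k1 u2 k2 u3 k3 v1 l1 (Nat.add v2 (Nat.mul 2 (Nat.div l2 2)))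
            (Nat.sub l2 (Nat.div l2 2)) v3 l3)
        (L p1 h1 p2 h2 p3 h3 u1 k1 u2 k2 u3 k3 v1 l1 v2 l2 v3 (Nat.div l3 2) &&
         R p1 h1 p2 h2 p3 h3 u1 k1 u2 k2 u3 k3 v1 l1 v2 l2
            (Nat.add v3 (Nat.mul 2 (Nat.div l3 2))) (Nat.sub l3 (Nat.div l3 2))))))))))) t

end Pool.Agent.Cube71
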