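import Pool.Agent.Cube71.Basic

/-! A nonempty bounded polytope in three-space without interior points, given by slabs,
contains a point at which at least four of the slab conditions are active. -/

namespace Pool.Agent.Cube71

open Topology

section
variable {ι : Type} [Fintype ι] (φ : ι → E3 →ₗ[ℝ] ℝ) (b : ι → ℝ)

/-- the polytope -/
def Pol : Set E3 := {x | ∀ i, |φ i x - b i| ≤ 1 / 2}

open Classical in
/-- the active conditions -/
noncomputable def act (x : E3) : Finset ι := Finset.univ.filter fun i => |φ i x - b i| = 1 / 2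

lemma mem_act {x : E3} {i : ι} : i ∈ act φ b x ↔ |φ i x - b i| = 1 / 2 := by
  classical
  simp [act]

lemma cont_aux (x d : E3) (i : ι) : Continuous fun t : ℝ => |φ i (x + t • d) - b i| := by
  have h : (fun t : ℝ => |φ i (x + t • d) - b i|) = fun t : ℝ => |φ i x + t * φ i d - b i| := by
    funext t
    rw [map_add, map_smul, smul_eq_mul]
  rw [h]
  fun_prop

lemma step (hφ : ∀ d : E3, d ≠ 0 → ∃ i, φ i d ≠ 0)
    (hno : ¬ ∃ x, ∀ i, |φ i x - b i| < 1 / 2) {x : E3} (hx : x ∈ Pol φ b)
    (hc : (act φ b x).card ≤ 3) : ∃ y ∈ Pol φ b, (act φ b x).card < (act φ b y).card := by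
  classical
  by_cases hd : ∃ d : E3, d ≠ 0 ∧ ∀ i ∈ act φ b x, φ i d = 0
  · obtain ⟨d, hd0, hd⟩ := hd
    set S : Set ℝ := {t | 0 ≤ t ∧ x + t • d ∈ Pol φ b} with hS
    have hclosed : IsClosed S := by
      have h1 : S = Set.Ici 0 ∩ ⋂ i, {t : ℝ | |φ i (x + t • d) - b i| ≤ 1 / 2} := by
        ext t; simp [hS, Pol]
      rw [h1]
      exact isClosed_Ici.inter (isClosed_iInter fun i =>
        isClosed_le (cont_aux φ b x d i) continuous_const)
    obtain ⟨i0, hi0⟩ := hφ d hd0
    have hbdd : ∀ t ∈ S, t ≤ 1 / |φ i0 d| := by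
      intro t ht
      have h1 := ht.2 i0
      have h2 := hx i0
      rw [map_add, map_smul, smul_eq_mul] at h1
      have h3 : |t * φ i0 d| ≤ 1 := by
        rw [abs_le] at h1 h2 ⊢
        constructor <;> linarith [h1.1, h1.2, h2.1, h2.2]
      rw [abs_mul, abs_of_nonneg ht.1] at h3
      rwa [le_div_iff₀ (abs_pos.2 hi0)]
    have h0S : (0 : ℝ) ∈ S := ⟨le_refl _, by simpa using hx⟩
    have hcomp : IsCompact S := by
      apply Metric.isCompact_of_isClosed_isBounded hclosed
      apply (Metric.isBounded_Icc 0 (1 / |φ i0 d|)).subset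
      intro t ht
      exact ⟨ht.1, hbdd t ht⟩
    obtain ⟨t0, ht0, hmax⟩ := hcomp.exists_isGreatest ⟨0, h0S⟩
    refine ⟨x + t0 • d, ht0.2, ?_⟩
    have hsame : ∀ t : ℝ, ∀ i ∈ act φ b x, φ i (x + t • d) = φ i x := by
      intro t i hi
      rw [map_add, map_smul, hd i hi, smul_zero, add_zero]
    have hnew : ∃ i, i ∉ act φ b x ∧ |φ i (x + t0 • d) - b i| = 1 / 2 := by
      by_contra hcon
      push Not at hcon
      have hlt : ∀ i, i ∉ act φ b x → |φ i (x + t0 • d) - b i| < 1 / 2 := fun i hi =>
        lt_of_le_of_ne (ht0.2 i) (hcon i hi)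
      have hev : ∀ᶠ t in 𝓝 t0, ∀ i, i ∉ act φ b x → |φ i (x + t • d) - b i| < 1 / 2 := by
        rw [Filter.eventually_all]
        intro i
        by_cases hi : i ∈ act φ b x
        · exact Filter.Eventually.of_forall fun t h => absurd hi h
        · have := (cont_aux φ b x d i).continuousAt.eventually_lt
            (continuousAt_const (y := (1 : ℝ) / 2)) (hlt i hi)
          exact this.mono fun t ht _ => ht
      have hev' := hev.filter_mono (nhdsWithin_le_nhds (s := Set.Ioi t0))
      obtain ⟨t, h1, h2⟩ := (hev'.and self_mem_nhdsWithin).exists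
      have h2 : t0 < t := h2
      have : t ∈ S := by
        refine ⟨ht0.1.trans h2.le, fun i => ?_⟩
        by_cases hi : i ∈ act φ b x
        · rw [hsame t i hi]; exact hx i
        · exact (h1 i hi).le
      exact absurd (hmax this) (not_le.2 h2)
    obtain ⟨i, hi1, hi2⟩ := hnew
    apply Finset.card_lt_card
    rw [Finset.ssubset_iff_of_subset]
    · exact ⟨i, (mem_act φ b).2 hi2, hi1⟩
    · intro j hj
      rw [mem_act, hsame t0 j hj]
      exact (mem_act φ b).1 hj
  · exfalso
    push Not at hd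
    set L : E3 →ₗ[ℝ] (↥(act φ b x) → ℝ) := LinearMap.pi fun i => φ i with hL
    have hinj : Function.Injective L := by
      rw [injective_iff_map_eq_zero]
      intro d hd'
      by_contra hne
      obtain ⟨i, hi, hi'⟩ := hd d hne
      exact hi' (congrFun hd' ⟨i, hi⟩)
    have hle := LinearMap.finrank_le_finrank_of_injective hinj
    have hfin : Module.finrank ℝ E3 = Module.finrank ℝ (↥(act φ b x) → ℝ) := by
      apply le_antisymm hle
      rw [Module.finrank_pi, Fintype.card_coe, finrank_euclideanSpace_fin]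
      exact hc
    have hsurj := (LinearMap.injective_iff_surjective_of_finrank_eq_finrank hfin).1 hinj
    obtain ⟨d, hd'⟩ := hsurj fun i => -(φ i x - b i)
    apply hno
    have hev : ∀ᶠ t in 𝓝 (0 : ℝ), ∀ i, i ∉ act φ b x → |φ i (x + t • d) - b i| < 1 / 2 := by
      rw [Filter.eventually_all]
      intro i
      by_cases hi : i ∈ act φ b x
      · exact Filter.Eventually.of_forall fun t h => absurd hi h
      · have h0 : |φ i (x + (0 : ℝ) • d) - b i| < 1 / 2 := by
          rw [zero_smul, add_zero]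
          exact lt_of_le_of_ne (hx i) fun h => hi ((mem_act φ b).2 h)
        have := (cont_aux φ b x d i).continuousAt.eventually_lt
            (continuousAt_const (y := (1 : ℝ) / 2)) h0
        exact this.mono fun t ht _ => ht
    have hev' := hev.filter_mono (nhdsWithin_le_nhds (s := Set.Ioi 0))
    have hone : ∀ᶠ t in 𝓝[>] (0 : ℝ), t < 1 :=
      (eventually_lt_nhds (by norm_num : (0 : ℝ) < 1)).filter_mono nhdsWithin_le_nhds
    obtain ⟨t, ⟨h1, h3⟩, h2⟩ := ((hev'.and hone).and self_mem_nhdsWithin).exists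
    have h2 : 0 < t := h2
    refine ⟨x + t • d, fun i => ?_⟩
    by_cases hi : i ∈ act φ b x
    · have e1 : φ i d = -(φ i x - b i) := congrFun hd' ⟨i, hi⟩
      have e2 : φ i (x + t • d) - b i = (1 - t) * (φ i x - b i) := by
        rw [map_add, map_smul, e1, smul_eq_mul]; ring
      rw [e2, abs_mul, (mem_act φ b).1 hi, abs_of_pos (by linarith)]
      linarith
    · exact h1 i hi

/-- existence of a point with at least four active conditions -/
lemma exists_four (hφ : ∀ d : E3, d ≠ 0 → ∃ i, φ i d ≠ 0)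
    (hno : ¬ ∃ x, ∀ i, |φ i x - b i| < 1 / 2) (hne : (Pol φ b).Nonempty) :
    ∃ x ∈ Pol φ b, 4 ≤ (act φ b x).card := by
  have key : ∀ n : ℕ, ∀ x ∈ Pol φ b, 4 ≤ (act φ b x).card + n →
      ∃ x ∈ Pol φ b, 4 ≤ (act φ b x).card := by
    intro n
    induction n with
    | zero => intro x hx h; exact ⟨x, hx, h⟩
    | succ n ih =>
      intro x hx h
      by_cases hc : (act φ b x).card ≤ 3
      · obtain ⟨y, hy, hlt⟩ := step φ b hφ hno hx hc
        exact ih y hy (by omega)
      · exact ⟨x, hx, by omega⟩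
  obtain ⟨x, hx⟩ := hne
  exact key 4 x hx (by omega)

end

end Pool.Agent.Cube71
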