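import Pool.Agent.Cube71.Basic

/-! A saturated configuration of eight axis-parallel unit cubes around `[0,1]^3`. -/

namespace Pool.Agent.Cube71

/-- largest distance (times 256) from points of `[X, X+s]` to `[a, a+256]` -/
def mx (X s a : ℕ) : ℕ := max (a - X) (X + s - (a + 256))

/-- smallest distance (times 256) from points of `[X, X+s]` to `[a, a+256]` -/
def mn (X s a : ℕ) : ℕ := (a - (X + s)) + (X - (a + 256))

/-- corner triples (scaled by 256 and shifted by 256) of the eight cubes -/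
def V8 : List (ℕ × ℕ × ℕ) :=
  [(512, 384, 384), (0, 128, 128), (128, 512, 384), (128, 128, 512), (384, 0, 128),
   (384, 384, 0), (512, 0, 512), (0, 512, 0)]

def far0 (X Y Z s : ℕ) : Bool :=
  Nat.blt 196608 (4 * (mn X s 256 * mn X s 256 + mn Y s 256 * mn Y s 256
    + mn Z s 256 * mn Z s 256))

def near (X Y Z s : ℕ) (v : ℕ × ℕ × ℕ) : Bool :=
  Nat.blt (4 * (mx X s v.1 * mx X s v.1 + mx Y s v.2.1 * mx Y s v.2.1
    + mx Z s v.2.2 * mx Z s v.2.2)) 65536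

def cell (X Y Z s : ℕ) : Bool :=
  far0 X Y Z s || near X Y Z s (256, 256, 256) || V8.any (near X Y Z s)

def chk : ℕ → ℕ → ℕ → ℕ → ℕ → Bool
  | 0, X, Y, Z, s => cell X Y Z s
  | n + 1, X, Y, Z, s => cell X Y Z s ||
      (chk n X Y Z (s / 2) && chk n (X + s / 2) Y Z (s / 2) &&
       chk n X (Y + s / 2) Z (s / 2) && chk n (X + s / 2) (Y + s / 2) Z (s / 2) &&
       chk n X Y (Z + s / 2) (s / 2) && chk n (X + s / 2) Y (Z + s / 2) (s / 2) &&
       chk n X (Y + s / 2) (Z + s / 2) (s / 2) &&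
       chk n (X + s / 2) (Y + s / 2) (Z + s / 2) (s / 2))

set_option maxRecDepth 100000 in
lemma chk_all : (chk 8 0 0 0 768) = true := by decide +kernel


/-- the point `(x,y,z)` (scaled) is close to the scaled cube with corner `v` -/
def Near (x y z : ℝ) (v : ℕ × ℕ × ℕ) : Prop :=
  ∃ p q r : ℝ, ((v.1 : ℝ) ≤ p ∧ p ≤ v.1 + 256) ∧ ((v.2.1 : ℝ) ≤ q ∧ q ≤ v.2.1 + 256) ∧
    ((v.2.2 : ℝ) ≤ r ∧ r ≤ v.2.2 + 256) ∧ 4 * ((x - p) ^ 2 + (y - q) ^ 2 + (z - r) ^ 2) < 65536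

/-- the point `(x,y,z)` (scaled) is far from the central cube -/
def Far (x y z : ℝ) : Prop :=
  ∀ p q r : ℝ, (256 ≤ p ∧ p ≤ 512) → (256 ≤ q ∧ q ≤ 512) → (256 ≤ r ∧ r ≤ 512) →
    196608 < 4 * ((x - p) ^ 2 + (y - q) ^ 2 + (z - r) ^ 2)

def Good (x y z : ℝ) : Prop :=
  Far x y z ∨ Near x y z (256, 256, 256) ∨ ∃ v ∈ V8, Near x y z v

lemma mx_spec {x : ℝ} {X s a : ℕ} (h1 : (X : ℝ) ≤ x) (h2 : x ≤ X + s) :
    ∃ p : ℝ, ((a : ℝ) ≤ p ∧ p ≤ a + 256) ∧ (x - p) ^ 2 ≤ ((mx X s a * mx X s a : ℕ) : ℝ) := by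
  have hA : (a : ℝ) - X ≤ (mx X s a : ℕ) := by
    have : a ≤ X + mx X s a := by unfold mx; omega
    have h : (a : ℝ) ≤ X + (mx X s a : ℕ) := by exact_mod_cast this
    linarith
  have hB : (X : ℝ) + s - (a + 256) ≤ (mx X s a : ℕ) := by
    have : X + s ≤ (a + 256) + mx X s a := by unfold mx; omega
    have h : (X : ℝ) + s ≤ (a + 256) + (mx X s a : ℕ) := by exact_mod_cast this
    linarith
  have h0 : (0 : ℝ) ≤ (mx X s a : ℕ) := Nat.cast_nonneg _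
  push_cast
  set M : ℝ := ((mx X s a : ℕ) : ℝ)
  rcases le_total x a with h | h
  · exact ⟨a, ⟨le_refl _, by linarith⟩, by nlinarith⟩
  · rcases le_total (a + 256 : ℝ) x with h' | h'
    · exact ⟨a + 256, ⟨by linarith, le_refl _⟩, by nlinarith⟩
    · exact ⟨x, ⟨h, h'⟩, by nlinarith⟩

lemma mn_spec {x : ℝ} {X s : ℕ} (h1 : (X : ℝ) ≤ x) (h2 : x ≤ X + s) {p : ℝ}
    (hp : 256 ≤ p) (hp' : p ≤ 512) :
    ((mn X s 256 * mn X s 256 : ℕ) : ℝ) ≤ (x - p) ^ 2 := by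
  rcases Nat.le_total (X + s) 256 with h | h
  · have e1 : (((mn X s 256 : ℕ) : ℝ)) = 256 - (X + s) := by
      have : mn X s 256 + (X + s) = 256 := by unfold mn; omega
      have h3 : ((mn X s 256 : ℕ) : ℝ) + (X + s) = 256 := by exact_mod_cast this
      linarith
    have h4 : (X : ℝ) + s ≤ 256 := by exact_mod_cast h
    rw [Nat.cast_mul, e1]
    nlinarith
  · rcases Nat.le_total X 512 with h' | h'
    · have e1 : mn X s 256 = 0 := by unfold mn; omega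
      rw [e1]
      simpa using sq_nonneg (x - p)
    · have e1 : (((mn X s 256 : ℕ) : ℝ)) = X - 512 := by
        have : mn X s 256 + 512 = X := by unfold mn; omega
        have h3 : ((mn X s 256 : ℕ) : ℝ) + 512 = X := by exact_mod_cast this
        linarith
      have h4 : (512 : ℝ) ≤ X := by exact_mod_cast h'
      rw [Nat.cast_mul, e1]
      nlinarith

lemma near_spec {x y z : ℝ} {X Y Z s : ℕ} (hx : (X : ℝ) ≤ x) (hx' : x ≤ X + s)
    (hy : (Y : ℝ) ≤ y) (hy' : y ≤ Y + s) (hz : (Z : ℝ) ≤ z) (hz' : z ≤ Z + s)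
    {v : ℕ × ℕ × ℕ} (h : near X Y Z s v = true) : Near x y z v := by
  obtain ⟨p, hp, hp'⟩ := mx_spec (a := v.1) hx hx'
  obtain ⟨q, hq, hq'⟩ := mx_spec (a := v.2.1) hy hy'
  obtain ⟨r, hr, hr'⟩ := mx_spec (a := v.2.2) hz hz'
  refine ⟨p, q, r, hp, hq, hr, ?_⟩
  have h1 : 4 * (mx X s v.1 * mx X s v.1 + mx Y s v.2.1 * mx Y s v.2.1
    + mx Z s v.2.2 * mx Z s v.2.2) < 65536 := by
    rw [near, Nat.blt_eq] at h; exact h
  have h2 : 4 * (((mx X s v.1 * mx X s v.1 : ℕ) : ℝ) + ((mx Y s v.2.1 * mx Y s v.2.1 : ℕ) : ℝ)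
    + ((mx Z s v.2.2 * mx Z s v.2.2 : ℕ) : ℝ)) < 65536 := by exact_mod_cast h1
  linarith

lemma far_spec {x y z : ℝ} {X Y Z s : ℕ} (hx : (X : ℝ) ≤ x) (hx' : x ≤ X + s)
    (hy : (Y : ℝ) ≤ y) (hy' : y ≤ Y + s) (hz : (Z : ℝ) ≤ z) (hz' : z ≤ Z + s)
    (h : far0 X Y Z s = true) : Far x y z := by
  intro p q r hp hq hr
  rw [far0, Nat.blt_eq] at h
  have h2 : (196608 : ℝ) < 4 * (((mn X s 256 * mn X s 256 : ℕ) : ℝ)
    + ((mn Y s 256 * mn Y s 256 : ℕ) : ℝ)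
    + ((mn Z s 256 * mn Z s 256 : ℕ) : ℝ)) := by exact_mod_cast h
  have a1 := mn_spec hx hx' hp.1 hp.2
  have a2 := mn_spec hy hy' hq.1 hq.2
  have a3 := mn_spec hz hz' hr.1 hr.2
  linarith

lemma cell_spec {x y z : ℝ} {X Y Z s : ℕ} (hx : (X : ℝ) ≤ x) (hx' : x ≤ X + s)
    (hy : (Y : ℝ) ≤ y) (hy' : y ≤ Y + s) (hz : (Z : ℝ) ≤ z) (hz' : z ≤ Z + s)
    (h : cell X Y Z s = true) : Good x y z := by
  unfold cell at h
  rw [Bool.or_eq_true, Bool.or_eq_true, List.any_eq_true] at h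
  rcases h with (h | h) | ⟨v, hv, h⟩
  · exact Or.inl (far_spec hx hx' hy hy' hz hz' h)
  · exact Or.inr (Or.inl (near_spec hx hx' hy hy' hz hz' h))
  · exact Or.inr (Or.inr ⟨v, hv, near_spec hx hx' hy hy' hz hz' h⟩)

lemma chk_spec : ∀ (n : ℕ) {x y z : ℝ} {X Y Z s : ℕ}, 2 ^ n ∣ s → (X : ℝ) ≤ x → x ≤ X + s →
    (Y : ℝ) ≤ y → y ≤ Y + s → (Z : ℝ) ≤ z → z ≤ Z + s → chk n X Y Z s = true →
    Good x y z := by
  intro n
  induction n with
  | zero =>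
    intro x y z X Y Z s _ hx hx' hy hy' hz hz' h
    exact cell_spec hx hx' hy hy' hz hz' h
  | succ n ih =>
    intro x y z X Y Z s hs hx hx' hy hy' hz hz' h
    obtain ⟨t, rfl⟩ : 2 ∣ s := (dvd_pow_self 2 (Nat.succ_ne_zero n)).trans hs
    have ht : 2 ^ n ∣ t := by
      rw [pow_succ, mul_comm] at hs
      exact Nat.dvd_of_mul_dvd_mul_left (by norm_num) hs
    have e : 2 * t / 2 = t := by omega
    unfold chk at h
    rw [e] at h
    simp only [Bool.or_eq_true, Bool.and_eq_true] at h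
    rcases h with h | ⟨⟨⟨⟨⟨⟨⟨h1, h2⟩, h3⟩, h4⟩, h5⟩, h6⟩, h7⟩, h8⟩
    · exact cell_spec hx hx' hy hy' hz hz' h
    · push_cast at hx' hy' hz'
      have cx : (x ≤ X + t) ∨ (((X + t : ℕ) : ℝ) ≤ x ∧ x ≤ ((X + t : ℕ) : ℝ) + t) := by
        push_cast
        rcases le_total x (X + t) with g | g
        · exact Or.inl g
        · exact Or.inr ⟨g, by linarith⟩
      have cy : (y ≤ Y + t) ∨ (((Y + t : ℕ) : ℝ) ≤ y ∧ y ≤ ((Y + t : ℕ) : ℝ) + t) := by
        push_cast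
        rcases le_total y (Y + t) with g | g
        · exact Or.inl g
        · exact Or.inr ⟨g, by linarith⟩
      have cz : (z ≤ Z + t) ∨ (((Z + t : ℕ) : ℝ) ≤ z ∧ z ≤ ((Z + t : ℕ) : ℝ) + t) := by
        push_cast
        rcases le_total z (Z + t) with g | g
        · exact Or.inl g
        · exact Or.inr ⟨g, by linarith⟩
      rcases cx with cx | cx <;> rcases cy with cy | cy <;> rcases cz with cz | cz
      · exact ih ht hx cx hy cy hz cz h1
      · exact ih ht hx cx hy cy cz.1 cz.2 h5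
      · exact ih ht hx cx cy.1 cy.2 hz cz h3
      · exact ih ht hx cx cy.1 cy.2 cz.1 cz.2 h7
      · exact ih ht cx.1 cx.2 hy cy hz cz h2
      · exact ih ht cx.1 cx.2 hy cy cz.1 cz.2 h6
      · exact ih ht cx.1 cx.2 cy.1 cy.2 hz cz h4
      · exact ih ht cx.1 cx.2 cy.1 cy.2 cz.1 cz.2 h8

/-- Every point of `[0,768]^3` (scaled coordinates) is far from the central cube, or close
to it, or close to one of the eight cubes. -/
lemma good_of_mem {x y z : ℝ} (hx : 0 ≤ x ∧ x ≤ 768) (hy : 0 ≤ y ∧ y ≤ 768)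
    (hz : 0 ≤ z ∧ z ≤ 768) : Good x y z :=
  chk_spec 8 (X := 0) (Y := 0) (Z := 0) (s := 768) (by norm_num)
    (by simpa using hx.1) (by simpa using hx.2)
    (by simpa using hy.1) (by simpa using hy.2) (by simpa using hz.1) (by simpa using hz.2)
    chk_all

end Pool.Agent.Cube71
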