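import Pool.Agent.Cube71.Sound

/-! Soundness of the tree recursion. -/

namespace Pool.Agent.Cube71

/-- the interval with lower end `p` and half width `h` -/
def In (p h : ℕ) (x : ℝ) : Prop := (p : ℝ) ≤ x ∧ x ≤ p + 2 * h

lemma halve {p h : ℕ} {x : ℝ} (hx : In p h x) :
    In p (Nat.div h 2) x ∨
    In (Nat.add p (Nat.mul 2 (Nat.div h 2))) (Nat.sub h (Nat.div h 2)) x := by
  unfold In at *
  rcases le_total x (p + 2 * ((Nat.div h 2 : ℕ) : ℝ)) with g | g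
  · exact Or.inl ⟨hx.1, g⟩
  · right
    have e : ((Nat.sub h (Nat.div h 2) : ℕ) : ℝ) = h - ((Nat.div h 2 : ℕ) : ℝ) :=
      Nat.cast_sub (Nat.div_le_self h 2)
    rw [e, cast_add', cast_mul']
    push_cast
    constructor
    · exact g
    · linarith [hx.2]

lemma bd1 {p h : ℕ} (b : p + 2 * h ≤ 16384) : p + 2 * Nat.div h 2 ≤ 16384 := by
  have : Nat.div h 2 ≤ h := Nat.div_le_self h 2
  omega

lemma bd2 {p h : ℕ} (b : p + 2 * h ≤ 16384) :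
    Nat.add p (Nat.mul 2 (Nat.div h 2)) + 2 * Nat.sub h (Nat.div h 2) ≤ 16384 := by
  have h1 : Nat.div h 2 ≤ h := Nat.div_le_self h 2
  have h2 : Nat.sub h (Nat.div h 2) + Nat.div h 2 = h := Nat.sub_add_cancel h1
  show p + 2 * Nat.div h 2 + 2 * Nat.sub h (Nat.div h 2) ≤ 16384
  omega

lemma chk_s (d : ℕ) (tl tr : T) (p1 h1 p2 h2 p3 h3 u1 k1 u2 k2 u3 k3 v1 l1 v2 l2 v3 l3 : ℕ) :
    chk (T.s d tl tr) p1 h1 p2 h2 p3 h3 u1 k1 u2 k2 u3 k3 v1 l1 v2 l2 v3 l3 =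
      cond (Nat.beq d 0)
        (chk tl p1 (Nat.div h1 2) p2 h2 p3 h3 u1 k1 u2 k2 u3 k3 v1 l1 v2 l2 v3 l3 &&
         chk tr (Nat.add p1 (Nat.mul 2 (Nat.div h1 2))) (Nat.sub h1 (Nat.div h1 2))
            p2 h2 p3 h3 u1 k1 u2 k2 u3 k3 v1 l1 v2 l2 v3 l3)
      (cond (Nat.beq d 1)
        (chk tl p1 h1 p2 (Nat.div h2 2) p3 h3 u1 k1 u2 k2 u3 k3 v1 l1 v2 l2 v3 l3 &&
         chk tr p1 h1 (Nat.add p2 (Nat.mul 2 (Nat.div h2 2))) (Nat.sub h2 (Nat.div h2 2))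
            p3 h3 u1 k1 u2 k2 u3 k3 v1 l1 v2 l2 v3 l3)
      (cond (Nat.beq d 2)
        (chk tl p1 h1 p2 h2 p3 (Nat.div h3 2) u1 k1 u2 k2 u3 k3 v1 l1 v2 l2 v3 l3 &&
         chk tr p1 h1 p2 h2 (Nat.add p3 (Nat.mul 2 (Nat.div h3 2))) (Nat.sub h3 (Nat.div h3 2))
            u1 k1 u2 k2 u3 k3 v1 l1 v2 l2 v3 l3)
      (cond (Nat.beq d 3)
        (chk tl p1 h1 p2 h2 p3 h3 u1 (Nat.div k1 2) u2 k2 u3 k3 v1 l1 v2 l2 v3 l3 &&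
         chk tr p1 h1 p2 h2 p3 h3 (Nat.add u1 (Nat.mul 2 (Nat.div k1 2)))
            (Nat.sub k1 (Nat.div k1 2)) u2 k2 u3 k3 v1 l1 v2 l2 v3 l3)
      (cond (Nat.beq d 4)
        (chk tl p1 h1 p2 h2 p3 h3 u1 k1 u2 (Nat.div k2 2) u3 k3 v1 l1 v2 l2 v3 l3 &&
         chk tr p1 h1 p2 h2 p3 h3 u1 k1 (Nat.add u2 (Nat.mul 2 (Nat.div k2 2)))
            (Nat.sub k2 (Nat.div k2 2)) u3 k3 v1 l1 v2 l2 v3 l3)
      (cond (Nat.beq d 5)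
        (chk tl p1 h1 p2 h2 p3 h3 u1 k1 u2 k2 u3 (Nat.div k3 2) v1 l1 v2 l2 v3 l3 &&
         chk tr p1 h1 p2 h2 p3 h3 u1 k1 u2 k2 (Nat.add u3 (Nat.mul 2 (Nat.div k3 2)))
            (Nat.sub k3 (Nat.div k3 2)) v1 l1 v2 l2 v3 l3)
      (cond (Nat.beq d 6)
        (chk tl p1 h1 p2 h2 p3 h3 u1 k1 u2 k2 u3 k3 v1 (Nat.div l1 2) v2 l2 v3 l3 &&
         chk tr p1 h1 p2 h2 p3 h3 u1 k1 u2 k2 u3 k3 (Nat.add v1 (Nat.mul 2 (Nat.div l1 2)))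
            (Nat.sub l1 (Nat.div l1 2)) v2 l2 v3 l3)
      (cond (Nat.beq d 7)
        (chk tl p1 h1 p2 h2 p3 h3 u1 k1 u2 k2 u3 k3 v1 l1 v2 (Nat.div l2 2) v3 l3 &&
         chk tr p1 h1 p2 h2 p3 h3 u1 k1 u2 k2 u3 k3 v1 l1
            (Nat.add v2 (Nat.mul 2 (Nat.div l2 2))) (Nat.sub l2 (Nat.div l2 2)) v3 l3)
        (chk tl p1 h1 p2 h2 p3 h3 u1 k1 u2 k2 u3 k3 v1 l1 v2 l2 v3 (Nat.div l3 2) &&
         chk tr p1 h1 p2 h2 p3 h3 u1 k1 u2 k2 u3 k3 v1 l1 v2 l2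
            (Nat.add v3 (Nat.mul 2 (Nat.div l3 2))) (Nat.sub l3 (Nat.div l3 2)))))))))) := rfl

lemma chk_sound (t : T) : ∀ {p1 h1 p2 h2 p3 h3 u1 k1 u2 k2 u3 k3 v1 l1 v2 l2 v3 l3 : ℕ}
    {a1 a2 a3 m1 m2 m3 n1 n2 n3 : ℝ},
    p1 + 2 * h1 ≤ 16384 → p2 + 2 * h2 ≤ 16384 → p3 + 2 * h3 ≤ 16384 →
    In p1 h1 (a1 + 8192) → In p2 h2 (a2 + 8192) → In p3 h3 (a3 + 8192) →
    In u1 k1 m1 → In u2 k2 m2 → In u3 k3 m3 →
    In v1 l1 (n1 + 128) → In v2 l2 (n2 + 128) → In v3 l3 (n3 + 128) →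
    n1 ≤ 128 → n2 ≤ 128 → n3 ≤ 128 → m2 ≤ m1 →
    chk t p1 h1 p2 h2 p3 h3 u1 k1 u2 k2 u3 k3 v1 l1 v2 l2 v3 l3 = true →
    Killed a1 a2 a3 m1 m2 m3 n1 n2 n3 := by
  induction t with
  | x =>
    intro p1 h1 p2 h2 p3 h3 u1 k1 u2 k2 u3 k3 v1 l1 v2 l2 v3 l3 a1 a2 a3 m1 m2 m3 n1 n2 n3
      b1 b2 b3 i1 i2 i3 j1 j2 j3 q1 q2 q3 c1 c2 c3 hm h
    exfalso
    have h' : Nat.blt (Nat.add u1 (Nat.mul 2 k1)) u2 = true := h
    rw [Nat.blt_eq] at h'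
    have h'' := (Nat.cast_lt (α := ℝ)).2 h'
    simp only [cast_add', cast_mul'] at h''
    push_cast at h''
    linarith [j1.2, j2.1]
  | k w =>
    intro p1 h1 p2 h2 p3 h3 u1 k1 u2 k2 u3 k3 v1 l1 v2 l2 v3 l3 a1 a2 a3 m1 m2 m3 n1 n2 n3
      b1 b2 b3 i1 i2 i3 j1 j2 j3 q1 q2 q3 c1 c2 c3 hm h
    exact kill_spec b1 b2 b3 i1 i2 i3 j1 j2 j3 q1 q2 q3 c1 c2 c3 h
  | s d tl tr ihl ihr =>
    intro p1 h1 p2 h2 p3 h3 u1 k1 u2 k2 u3 k3 v1 l1 v2 l2 v3 l3 a1 a2 a3 m1 m2 m3 n1 n2 n3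
      b1 b2 b3 i1 i2 i3 j1 j2 j3 q1 q2 q3 c1 c2 c3 hm h
    rw [chk_s] at h
    cases e0 : Nat.beq d 0 with
    | true =>
      rw [e0, cond_true, Bool.and_eq_true] at h
      rcases halve i1 with g | g
      · exact ihl (bd1 b1) b2 b3 g i2 i3 j1 j2 j3 q1 q2 q3 c1 c2 c3 hm h.1
      · exact ihr (bd2 b1) b2 b3 g i2 i3 j1 j2 j3 q1 q2 q3 c1 c2 c3 hm h.2
    | false =>
    rw [e0, cond_false] at h
    cases e1 : Nat.beq d 1 with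
    | true =>
      rw [e1, cond_true, Bool.and_eq_true] at h
      rcases halve i2 with g | g
      · exact ihl b1 (bd1 b2) b3 i1 g i3 j1 j2 j3 q1 q2 q3 c1 c2 c3 hm h.1
      · exact ihr b1 (bd2 b2) b3 i1 g i3 j1 j2 j3 q1 q2 q3 c1 c2 c3 hm h.2
    | false =>
    rw [e1, cond_false] at h
    cases e2 : Nat.beq d 2 with
    | true =>
      rw [e2, cond_true, Bool.and_eq_true] at h
      rcases halve i3 with g | g
      · exact ihl b1 b2 (bd1 b3) i1 i2 g j1 j2 j3 q1 q2 q3 c1 c2 c3 hm h.1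
      · exact ihr b1 b2 (bd2 b3) i1 i2 g j1 j2 j3 q1 q2 q3 c1 c2 c3 hm h.2
    | false =>
    rw [e2, cond_false] at h
    cases e3 : Nat.beq d 3 with
    | true =>
      rw [e3, cond_true, Bool.and_eq_true] at h
      rcases halve j1 with g | g
      · exact ihl b1 b2 b3 i1 i2 i3 g j2 j3 q1 q2 q3 c1 c2 c3 hm h.1
      · exact ihr b1 b2 b3 i1 i2 i3 g j2 j3 q1 q2 q3 c1 c2 c3 hm h.2
    | false =>
    rw [e3, cond_false] at h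
    cases e4 : Nat.beq d 4 with
    | true =>
      rw [e4, cond_true, Bool.and_eq_true] at h
      rcases halve j2 with g | g
      · exact ihl b1 b2 b3 i1 i2 i3 j1 g j3 q1 q2 q3 c1 c2 c3 hm h.1
      · exact ihr b1 b2 b3 i1 i2 i3 j1 g j3 q1 q2 q3 c1 c2 c3 hm h.2
    | false =>
    rw [e4, cond_false] at h
    cases e5 : Nat.beq d 5 with
    | true =>
      rw [e5, cond_true, Bool.and_eq_true] at h
      rcases halve j3 with g | g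
      · exact ihl b1 b2 b3 i1 i2 i3 j1 j2 g q1 q2 q3 c1 c2 c3 hm h.1
      · exact ihr b1 b2 b3 i1 i2 i3 j1 j2 g q1 q2 q3 c1 c2 c3 hm h.2
    | false =>
    rw [e5, cond_false] at h
    cases e6 : Nat.beq d 6 with
    | true =>
      rw [e6, cond_true, Bool.and_eq_true] at h
      rcases halve q1 with g | g
      · exact ihl b1 b2 b3 i1 i2 i3 j1 j2 j3 g q2 q3 c1 c2 c3 hm h.1
      · exact ihr b1 b2 b3 i1 i2 i3 j1 j2 j3 g q2 q3 c1 c2 c3 hm h.2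
    | false =>
    rw [e6, cond_false] at h
    cases e7 : Nat.beq d 7 with
    | true =>
      rw [e7, cond_true, Bool.and_eq_true] at h
      rcases halve q2 with g | g
      · exact ihl b1 b2 b3 i1 i2 i3 j1 j2 j3 q1 g q3 c1 c2 c3 hm h.1
      · exact ihr b1 b2 b3 i1 i2 i3 j1 j2 j3 q1 g q3 c1 c2 c3 hm h.2
    | false =>
      rw [e7, cond_false, Bool.and_eq_true] at h
      rcases halve q3 with g | g
      · exact ihl b1 b2 b3 i1 i2 i3 j1 j2 j3 q1 q2 g c1 c2 c3 hm h.1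
      · exact ihr b1 b2 b3 i1 i2 i3 j1 j2 j3 q1 q2 g c1 c2 c3 hm h.2

end Pool.Agent.Cube71
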