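import Pool.Agent.Cube71.Rot
import Pool.Agent.Cube71.Tree

/-! Symmetry reductions and rational parameters. -/

namespace Pool.Agent.Cube71

open Matrix Finset

/-- no point of the union of the cubes lies in the interior of the moving cube -/
def Free (u v : Fin 3 → ℝ) (G : Matrix (Fin 3) (Fin 3) ℝ) : Prop :=
  ∀ w : Fin 3 → ℝ, Wp (w 0) (w 1) (w 2) → ∃ j, 1 / 2 ≤ |∑ k, G j k * (w k - u k) + v j|

/-- a position of a unit cube that touches the central cube at a point where at least four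
face conditions are active, and avoids the cubes. -/
structure Conf (u v : Fin 3 → ℝ) (G : Matrix (Fin 3) (Fin 3) ℝ) : Prop where
  hu : ∀ k, |u k| ≤ 1 / 2
  hv : ∀ j, |v j| ≤ 1 / 2
  four : 4 ≤ (∑ k, if |u k| = 1 / 2 then 1 else 0) + ∑ j, if |v j| = 1 / 2 then 1 else 0
  orth : G * Gᵀ = 1
  free : Free u v G

lemma orth_iff {G : Matrix (Fin 3) (Fin 3) ℝ} :
    G * Gᵀ = 1 ↔ ∀ i j, ∑ k, G i k * G j k = if i = j then 1 else 0 := by
  constructor
  · intro h i j
    have := congrFun (congrFun h i) j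
    rw [Matrix.mul_apply, Matrix.one_apply] at this
    exact this
  · intro h
    ext i j
    rw [Matrix.mul_apply, Matrix.one_apply]
    exact h i j

lemma sgn_sq {s : ℝ} (h : s = 1 ∨ s = -1) : s * s = 1 := by
  rcases h with rfl | rfl <;> norm_num

lemma sgn_abs {s : ℝ} (h : s = 1 ∨ s = -1) (x : ℝ) : |s * x| = |x| := by
  rcases h with rfl | rfl <;> simp

/-- reflections in the coordinate planes -/
lemma conf_flip {u v : Fin 3 → ℝ} {G : Matrix (Fin 3) (Fin 3) ℝ} (h : Conf u v G)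
    {s : Fin 3 → ℝ} (hs : ∀ k, s k = 1 ∨ s k = -1) :
    Conf (fun k => s k * u k) v (Matrix.of fun j k => s k * G j k) := by
  refine ⟨fun k => by rw [sgn_abs (hs k)]; exact h.hu k, h.hv, ?_, ?_, ?_⟩
  · have := h.four
    simpa only [sgn_abs (hs _)] using this
  · rw [orth_iff]
    intro i j
    rw [← orth_iff.1 h.orth i j]
    apply Finset.sum_congr rfl
    intro k _
    simp only [Matrix.of_apply]
    linear_combination G i k * G j k * sgn_sq (hs k)
  · intro w hw
    obtain ⟨j, hj⟩ := h.free (fun k => s k * w k) (by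
      unfold Wp at *
      simpa only [sgn_abs (hs _)] using hw)
    refine ⟨j, ?_⟩
    have e : ∑ k, (Matrix.of fun j k => s k * G j k) j k * (w k - s k * u k)
        = ∑ k, G j k * (s k * w k - u k) := by
      apply Finset.sum_congr rfl
      intro k _
      simp only [Matrix.of_apply]
      linear_combination (-G j k * u k) * sgn_sq (hs k)
    rw [e]
    exact hj

/-- reflection in the plane `x = y` -/
lemma conf_swap {u v : Fin 3 → ℝ} {G : Matrix (Fin 3) (Fin 3) ℝ} (h : Conf u v G) :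
    Conf (fun k => u (Equiv.swap 0 1 k)) v (Matrix.of fun j k => G j (Equiv.swap 0 1 k)) := by
  refine ⟨fun k => h.hu _, h.hv, ?_, ?_, ?_⟩
  · have := h.four
    rwa [← Equiv.sum_comp (Equiv.swap (0 : Fin 3) 1) (fun k => if |u k| = 1 / 2 then 1 else 0)]
      at this
  · rw [orth_iff]
    intro i j
    rw [← orth_iff.1 h.orth i j]
    exact Equiv.sum_comp (Equiv.swap (0 : Fin 3) 1) (fun k => G i k * G j k)
  · intro w hw
    obtain ⟨j, hj⟩ := h.free (fun k => w (Equiv.swap 0 1 k)) (by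
      have e0 : Equiv.swap (0 : Fin 3) 1 0 = 1 := by decide
      have e1 : Equiv.swap (0 : Fin 3) 1 1 = 0 := by decide
      have e2 : Equiv.swap (0 : Fin 3) 1 2 = 2 := by decide
      unfold Wp at *
      simp only [e0, e1, e2]
      have e3 : (|w 1| - |w 0|) ^ 2 = (|w 0| - |w 1|) ^ 2 := by ring
      rw [add_comm |w 1| |w 0|, e3]
      rcases hw with hw | hw | hw
      · exact Or.inl ⟨hw.2.1, hw.1, hw.2.2⟩
      · exact Or.inr (Or.inl hw)
      · exact Or.inr (Or.inr hw))
    refine ⟨j, ?_⟩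
    have e : ∑ k, (Matrix.of fun j k => G j (Equiv.swap 0 1 k)) j k
        * (w k - u (Equiv.swap 0 1 k)) = ∑ k, G j k * (w (Equiv.swap 0 1 k) - u k) := by
      rw [← Equiv.sum_comp (Equiv.swap (0 : Fin 3) 1)
        (fun k => G j k * (w (Equiv.swap 0 1 k) - u k))]
      apply Finset.sum_congr rfl
      intro k _
      simp only [Matrix.of_apply, Equiv.swap_apply_self]
    rw [e]
    exact hj

/-- reordering and reversing the frame vectors -/
def relab (p : Equiv.Perm (Fin 3) × (Fin 3 → ℤˣ)) (G : Matrix (Fin 3) (Fin 3) ℝ) :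
    Matrix (Fin 3) (Fin 3) ℝ :=
  Matrix.of fun j k => ((p.2 j : ℤ) : ℝ) * G (p.1 j) k

lemma unit_sgn (e : ℤˣ) : ((e : ℤ) : ℝ) = 1 ∨ ((e : ℤ) : ℝ) = -1 := by
  rcases Int.units_eq_one_or e with rfl | rfl
  · left; simp
  · right; simp

lemma conf_relab {u v : Fin 3 → ℝ} {G : Matrix (Fin 3) (Fin 3) ℝ} (h : Conf u v G)
    (p : Equiv.Perm (Fin 3) × (Fin 3 → ℤˣ)) :
    Conf u (fun j => ((p.2 j : ℤ) : ℝ) * v (p.1 j)) (relab p G) := by
  refine ⟨h.hu, fun j => by rw [sgn_abs (unit_sgn _)]; exact h.hv _, ?_, ?_, ?_⟩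
  · have := h.four
    simp only [sgn_abs (unit_sgn _)]
    rwa [← Equiv.sum_comp p.1 (fun j => if |v j| = 1 / 2 then 1 else 0)] at this
  · rw [orth_iff]
    intro i j
    have h1 := orth_iff.1 h.orth (p.1 i) (p.1 j)
    have h2 : ∑ k, relab p G i k * relab p G j k
        = ((p.2 i : ℤ) : ℝ) * ((p.2 j : ℤ) : ℝ) * ∑ k, G (p.1 i) k * G (p.1 j) k := by
      rw [Finset.mul_sum]
      apply Finset.sum_congr rfl
      intro k _
      simp only [relab, Matrix.of_apply]
      ring
    rw [h2, h1]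
    by_cases hij : i = j
    · subst hij
      simp only [if_true, mul_one]
      exact sgn_sq (unit_sgn _)
    · rw [if_neg hij, if_neg (fun e => hij (p.1.injective e)), mul_zero]
  · intro w hw
    obtain ⟨j, hj⟩ := h.free w hw
    refine ⟨p.1.symm j, ?_⟩
    have e : ∑ k, relab p G (p.1.symm j) k * (w k - u k)
        + ((p.2 (p.1.symm j) : ℤ) : ℝ) * v (p.1 (p.1.symm j))
        = ((p.2 (p.1.symm j) : ℤ) : ℝ) * (∑ k, G j k * (w k - u k) + v j) := by
      rw [Equiv.apply_symm_apply, mul_add, Finset.mul_sum]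
      congr 1
      apply Finset.sum_congr rfl
      intro k _
      simp only [relab, Matrix.of_apply, Equiv.apply_symm_apply]
      ring
    show 1 / 2 ≤ |_|
    rw [e, sgn_abs (unit_sgn _)]
    exact hj

lemma relab_relab (p q : Equiv.Perm (Fin 3) × (Fin 3 → ℤˣ)) (G : Matrix (Fin 3) (Fin 3) ℝ) :
    relab q (relab p G) = relab (p.1 * q.1, fun j => q.2 j * p.2 (q.1 j)) G := by
  ext j k
  simp only [relab, Matrix.of_apply, Equiv.Perm.mul_apply]
  push_cast
  ring

/-- After reordering, the frame is positively oriented and has maximal trace. -/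
lemma conf_max {u v : Fin 3 → ℝ} {G : Matrix (Fin 3) (Fin 3) ℝ} (h : Conf u v G) :
    ∃ (v' : Fin 3 → ℝ) (G' : Matrix (Fin 3) (Fin 3) ℝ), Conf u v' G' ∧ G'.det = 1 ∧
      |G' 1 2 - G' 2 1| ≤ G' 1 1 + G' 2 2 ∧ |G' 2 0 - G' 0 2| ≤ G' 0 0 + G' 2 2 ∧
      |G' 0 1 - G' 1 0| ≤ G' 0 0 + G' 1 1 := by
  classical
  let tr : Matrix (Fin 3) (Fin 3) ℝ → ℝ := fun G => G 0 0 + G 1 1 + G 2 2
  let S : Finset (Equiv.Perm (Fin 3) × (Fin 3 → ℤˣ)) :=
    Finset.univ.filter fun p => (relab p G).det = 1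
  have hS : S.Nonempty := by
    have hdet : G.det * G.det = 1 := by
      have := congrArg Matrix.det h.orth
      rwa [Matrix.det_mul, Matrix.det_transpose, Matrix.det_one] at this
    have hd : G.det = 1 ∨ G.det = -1 := mul_self_eq_one_iff.1 hdet
    rcases hd with hd | hd
    · refine ⟨(1, fun _ => 1), ?_⟩
      rw [Finset.mem_filter]
      refine ⟨Finset.mem_univ _, ?_⟩
      have : relab (1, fun _ => 1) G = G := by
        ext j k; simp [relab]
      rw [this, hd]
    · refine ⟨(1, ![-1, 1, 1]), ?_⟩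
      rw [Finset.mem_filter]
      refine ⟨Finset.mem_univ _, ?_⟩
      rw [Matrix.det_fin_three] at hd ⊢
      simp [relab]
      linarith
  obtain ⟨p, hp, hmax⟩ := Finset.exists_max_image S (fun p => tr (relab p G)) hS
  have hpd : (relab p G).det = 1 := (Finset.mem_filter.1 hp).2
  have cmp : ∀ q : Equiv.Perm (Fin 3) × (Fin 3 → ℤˣ), (relab q (relab p G)).det = 1 →
      tr (relab q (relab p G)) ≤ tr (relab p G) := by
    intro q hq
    rw [relab_relab] at hq ⊢
    exact hmax _ (Finset.mem_filter.2 ⟨Finset.mem_univ _, hq⟩)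
  refine ⟨_, relab p G, conf_relab h p, hpd, ?_⟩
  generalize relab p G = H at cmp hpd
  have hH := hpd
  rw [Matrix.det_fin_three] at hpd
  have s120 : Equiv.swap (1 : Fin 3) 2 0 = 0 := by decide
  have s121 : Equiv.swap (1 : Fin 3) 2 1 = 2 := by decide
  have s122 : Equiv.swap (1 : Fin 3) 2 2 = 1 := by decide
  have s020 : Equiv.swap (0 : Fin 3) 2 0 = 2 := by decide
  have s021 : Equiv.swap (0 : Fin 3) 2 1 = 1 := by decide
  have s022 : Equiv.swap (0 : Fin 3) 2 2 = 0 := by decide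
  have s010 : Equiv.swap (0 : Fin 3) 1 0 = 1 := by decide
  have s011 : Equiv.swap (0 : Fin 3) 1 1 = 0 := by decide
  have s012 : Equiv.swap (0 : Fin 3) 1 2 = 2 := by decide
  have q1 := cmp (Equiv.swap 1 2, ![1, 1, -1]) (by
    rw [Matrix.det_fin_three]
    simp [relab, s120, s121, s122]
    linarith)
  have q2 := cmp (Equiv.swap 1 2, ![1, -1, 1]) (by
    rw [Matrix.det_fin_three]
    simp [relab, s120, s121, s122]
    linarith)
  have q3 := cmp (Equiv.swap 0 2, ![1, 1, -1]) (by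
    rw [Matrix.det_fin_three]
    simp [relab, s020, s021, s022]
    linarith)
  have q4 := cmp (Equiv.swap 0 2, ![-1, 1, 1]) (by
    rw [Matrix.det_fin_three]
    simp [relab, s020, s021, s022]
    linarith)
  have q5 := cmp (Equiv.swap 0 1, ![1, -1, 1]) (by
    rw [Matrix.det_fin_three]
    simp [relab, s010, s011, s012]
    linarith)
  have q6 := cmp (Equiv.swap 0 1, ![-1, 1, 1]) (by
    rw [Matrix.det_fin_three]
    simp [relab, s010, s011, s012]
    linarith)
  simp [relab, tr, s120, s121, s122, s020, s021, s022, s010, s011, s012] at q1 q2 q3 q4 q5 q6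
  refine ⟨abs_le.2 ⟨?_, ?_⟩, abs_le.2 ⟨?_, ?_⟩, abs_le.2 ⟨?_, ?_⟩⟩ <;> linarith

end Pool.Agent.Cube71
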