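import Pool.Agent.Cube71.Basic

/-! Unit cubes in terms of a centre and an orthogonal matrix. -/

namespace Pool.Agent.Cube71

open Matrix

/-- the cube with centre `c` and face directions the rows of `G` -/
def cubeOf (c : Fin 3 → ℝ) (G : Matrix (Fin 3) (Fin 3) ℝ) : Set E3 :=
  {x | ∀ j, |∑ k, G j k * (x k - c k)| ≤ 1 / 2}

/-- its open version -/
def openOf (c : Fin 3 → ℝ) (G : Matrix (Fin 3) (Fin 3) ℝ) : Set E3 :=
  {x | ∀ j, |∑ k, G j k * (x k - c k)| < 1 / 2}

lemma cont_form (c : Fin 3 → ℝ) (G : Matrix (Fin 3) (Fin 3) ℝ) (j : Fin 3) :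
    Continuous fun x : E3 => |∑ k, G j k * (x k - c k)| := by
  fun_prop

lemma isOpen_openOf (c : Fin 3 → ℝ) (G : Matrix (Fin 3) (Fin 3) ℝ) : IsOpen (openOf c G) := by
  have : openOf c G = ⋂ j, {x : E3 | |∑ k, G j k * (x k - c k)| < 1 / 2} := by
    ext x; simp [openOf]
  rw [this]
  exact isOpen_iInter_of_finite fun j => isOpen_lt (cont_form c G j) continuous_const

lemma isClosed_cubeOf (c : Fin 3 → ℝ) (G : Matrix (Fin 3) (Fin 3) ℝ) :
    IsClosed (cubeOf c G) := by
  have : cubeOf c G = ⋂ j, {x : E3 | |∑ k, G j k * (x k - c k)| ≤ 1 / 2} := by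
    ext x; simp [cubeOf]
  rw [this]
  exact isClosed_iInter fun j => isClosed_le (cont_form c G j) continuous_const

lemma openOf_subset (c : Fin 3 → ℝ) (G : Matrix (Fin 3) (Fin 3) ℝ) :
    openOf c G ⊆ interior (cubeOf c G) :=
  interior_maximal (fun _ h j => (h j).le) (isOpen_openOf c G)

/-- the centre as a point -/
noncomputable def ptOf (c : Fin 3 → ℝ) : E3 := WithLp.toLp 2 c

@[simp] lemma ptOf_apply (c : Fin 3 → ℝ) (k : Fin 3) : ptOf c k = c k := rfl

lemma center_mem (c : Fin 3 → ℝ) (G : Matrix (Fin 3) (Fin 3) ℝ) : ptOf c ∈ openOf c G := by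
  intro j
  simp

lemma convex_cubeOf (c : Fin 3 → ℝ) (G : Matrix (Fin 3) (Fin 3) ℝ) :
    Convex ℝ (cubeOf c G) := by
  intro x hx y hy a b ha hb hab j
  have e : ∑ k, G j k * ((a • x + b • y) k - c k)
      = a * ∑ k, G j k * (x k - c k) + b * ∑ k, G j k * (y k - c k) := by
    rw [Finset.mul_sum, Finset.mul_sum, ← Finset.sum_add_distrib]
    apply Finset.sum_congr rfl
    intro k _
    have h1 : (a • x + b • y) k = a * x k + b * y k := by simp
    rw [h1]
    linear_combination (G j k * c k) * hab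
  rw [e]
  have h1 := abs_le.1 (hx j)
  have h2 := abs_le.1 (hy j)
  rw [abs_le]
  constructor <;> nlinarith

lemma subset_closure_interior (c : Fin 3 → ℝ) (G : Matrix (Fin 3) (Fin 3) ℝ) :
    cubeOf c G ⊆ closure (interior (cubeOf c G)) := by
  rw [(convex_cubeOf c G).closure_interior_eq_closure_of_nonempty_interior
    ⟨ptOf c, openOf_subset c G (center_mem c G)⟩]
  exact subset_closure

/-- A point of one cube in the open version of another: the interiors meet. -/
lemma meets_of_mem {c c' : Fin 3 → ℝ} {G G' : Matrix (Fin 3) (Fin 3) ℝ} {x : E3}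
    (hx : x ∈ cubeOf c' G') (hx' : x ∈ openOf c G) :
    ¬ Disjoint (interior (cubeOf c G)) (interior (cubeOf c' G')) := by
  obtain ⟨y, hy1, hy2⟩ := mem_closure_iff.1 (subset_closure_interior c' G' hx) _
    (isOpen_openOf c G) hx'
  rw [Set.not_disjoint_iff]
  exact ⟨y, openOf_subset c G hy1, hy2⟩

lemma C0_eq_cubeOf : C0 = cubeOf (fun _ => 1 / 2) 1 := by
  ext x
  simp only [C0, cubeOf, Set.mem_ofPred_eq]
  apply forall_congr'
  intro j
  have e : ∑ k, (1 : Matrix (Fin 3) (Fin 3) ℝ) j k * (x k - 1 / 2) = x j - 1 / 2 := by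
    simp [Matrix.one_apply]
  rw [e, abs_le]
  constructor
  · rintro ⟨h1, h2⟩; constructor <;> linarith
  · rintro ⟨h1, h2⟩; constructor <;> linarith

lemma isUnitCube_cubeOf (c : Fin 3 → ℝ) {G : Matrix (Fin 3) (Fin 3) ℝ} (hG : G * Gᵀ = 1) :
    IsUnitCube (cubeOf c G) := by
  have hG' : Gᵀ * G = 1 := mul_eq_one_comm.1 hG
  have o : ∀ i j, ∑ k, G i k * G j k = if i = j then 1 else 0 := by
    intro i j
    have := congrFun (congrFun hG i) j
    rw [Matrix.mul_apply, Matrix.one_apply] at this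
    exact this
  have p : ∀ i j, ∑ k, G k i * G k j = if i = j then 1 else 0 := by
    intro i j
    have := congrFun (congrFun hG' i) j
    rw [Matrix.mul_apply, Matrix.one_apply] at this
    exact this
  let f : E3 → E3 := fun y => ptOf fun k => c k + ∑ j, (y j - 1 / 2) * G j k
  let g : E3 → E3 := fun x => ptOf fun j => 1 / 2 + ∑ k, G j k * (x k - c k)
  have hf : ∀ y k, f y k = c k + ∑ j, (y j - 1 / 2) * G j k := fun y k => rfl
  have hg : ∀ x j, g x j = 1 / 2 + ∑ k, G j k * (x k - c k) := fun x j => rfl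
  have hfg : ∀ x, f (g x) = x := by
    intro x
    ext k
    rw [hf]
    simp only [hg, Fin.sum_univ_three]
    have p0 := p 0 k
    have p1 := p 1 k
    have p2 := p 2 k
    rw [Fin.sum_univ_three] at p0 p1 p2
    fin_cases k <;> simp at p0 p1 p2 ⊢ <;>
      linear_combination (x 0 - c 0) * p0 + (x 1 - c 1) * p1 + (x 2 - c 2) * p2
  have hiso : Isometry f := by
    apply Isometry.of_dist_eq
    intro y z
    have h : dist (f y) (f z) ^ 2 = dist y z ^ 2 := by
      rw [dist_sq, dist_sq, hf, hf, hf, hf, hf, hf]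
      simp only [Fin.sum_univ_three]
      have o00 := o 0 0
      have o11 := o 1 1
      have o22 := o 2 2
      have o01 := o 0 1
      have o02 := o 0 2
      have o12 := o 1 2
      rw [Fin.sum_univ_three] at o00 o11 o22 o01 o02 o12
      simp at o00 o11 o22 o01 o02 o12
      linear_combination (y 0 - z 0) ^ 2 * o00 + (y 1 - z 1) ^ 2 * o11 + (y 2 - z 2) ^ 2 * o22
        + 2 * (y 0 - z 0) * (y 1 - z 1) * o01 + 2 * (y 0 - z 0) * (y 2 - z 2) * o02
        + 2 * (y 1 - z 1) * (y 2 - z 2) * o12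
    exact (pow_left_inj₀ dist_nonneg dist_nonneg two_ne_zero).1 h
  let F : E3 ≃ᵢ E3 := IsometryEquiv.mk' f g hfg hiso
  refine ⟨F, ?_⟩
  ext x
  constructor
  · intro hx
    refine ⟨g x, fun j => ?_, hfg x⟩
    have := abs_le.1 (hx j)
    rw [hg]
    constructor <;> linarith [this.1, this.2]
  · rintro ⟨y, hy, rfl⟩ j
    have hFy : F y = f y := rfl
    rw [hFy]
    have e : ∑ k, G j k * (f y k - c k) = y j - 1 / 2 := by
      simp only [hf, Fin.sum_univ_three]
      have o0 := o j 0
      have o1 := o j 1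
      have o2 := o j 2
      rw [Fin.sum_univ_three] at o0 o1 o2
      fin_cases j <;> simp at o0 o1 o2 ⊢ <;>
        linear_combination (y 0 - 1/2) * o0 + (y 1 - 1/2) * o1 + (y 2 - 1/2) * o2
    rw [e, abs_le]
    have := hy j
    constructor <;> linarith [this.1, this.2]

/-- every unit cube is of this form -/
lemma exists_cubeOf {Q : Set E3} (hQ : IsUnitCube Q) :
    ∃ (c : Fin 3 → ℝ) (G : Matrix (Fin 3) (Fin 3) ℝ), G * Gᵀ = 1 ∧ Q = cubeOf c G := by
  obtain ⟨f, rfl⟩ := hQ
  let A := f.toRealAffineIsometryEquiv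
  have hA : ∀ x, A x = f x := fun x => rfl
  let L : E3 ≃ₗᵢ[ℝ] E3 := A.linearIsometryEquiv
  have hL : ∀ x : E3, f x - f ctr = L (x - ctr) := by
    intro x
    have := A.map_vsub x ctr
    simpa [hA, vsub_eq_sub] using this.symm
  let G : Matrix (Fin 3) (Fin 3) ℝ := Matrix.of fun j k => L (EuclideanSpace.single j 1) k
  have inn : ∀ x y : E3, inner ℝ x y = ∑ k, x k * y k := by
    intro x y
    rw [PiLp.inner_apply]
    apply Finset.sum_congr rfl
    intro k _
    simp [mul_comm]
  have hGin : ∀ (j : Fin 3) (x : E3), ∑ k, G j k * L x k = x j := by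
    intro j x
    have h1 : ∑ k, G j k * L x k = inner ℝ (L (EuclideanSpace.single j 1)) (L x) := by
      rw [inn]; rfl
    rw [h1, L.inner_map_map, EuclideanSpace.inner_single_left]
    simp
  refine ⟨fun k => f ctr k, G, ?_, ?_⟩
  · ext i j
    rw [Matrix.mul_apply, Matrix.one_apply]
    have := hGin i (EuclideanSpace.single j 1)
    have h2 : ∑ k, G i k * Gᵀ k j = ∑ k, G i k * L (EuclideanSpace.single j 1) k := rfl
    rw [h2, this]
    simp
  · have key : ∀ (y : E3) (j : Fin 3), ∑ k, G j k * (f y k - f ctr k) = y j - 1 / 2 := by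
      intro y j
      have h1 := hGin j (y - ctr)
      rw [← hL] at h1
      have h3 : ctr j = 1 / 2 := ctr_apply j
      simpa [h3] using h1
    ext x
    constructor
    · rintro ⟨y, hy, rfl⟩ j
      rw [key, abs_le]
      have := hy j
      constructor <;> linarith [this.1, this.2]
    · intro hx
      refine ⟨f.symm x, fun j => ?_, f.apply_symm_apply x⟩
      have h1 := hx j
      have h2 := key (f.symm x) j
      rw [f.apply_symm_apply] at h2
      rw [h2, abs_le] at h1
      constructor <;> linarith [h1.1, h1.2]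

end Pool.Agent.Cube71
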