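import Pool.Agent.Cube71.Charts

/-! There is no position avoiding the cubes. -/

namespace Pool.Agent.Cube71

open Matrix Finset

/-- rational parameters (scaled by 8192) of a rotation with maximal trace -/
lemma params {G : Matrix (Fin 3) (Fin 3) ℝ} (hG : G * Gᵀ = 1) (hd : G.det = 1)
    (b1 : |G 1 2 - G 2 1| ≤ G 1 1 + G 2 2) (b2 : |G 2 0 - G 0 2| ≤ G 0 0 + G 2 2)
    (b3 : |G 0 1 - G 1 0| ≤ G 0 0 + G 1 1) :
    ∃ a1 a2 a3 : ℝ, |a1| ≤ 3456 ∧ |a2| ≤ 3456 ∧ |a3| ≤ 3456 ∧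
      ∀ x1 x2 x3 : ℝ,
        Nr a1 a2 a3 x1 x2 x3 = Dr a1 a2 a3 * (G 0 0 * x1 + G 0 1 * x2 + G 0 2 * x3) ∧
        Nr a2 a3 a1 x2 x3 x1 = Dr a1 a2 a3 * (G 1 0 * x1 + G 1 1 * x2 + G 1 2 * x3) ∧
        Nr a3 a1 a2 x3 x1 x2 = Dr a1 a2 a3 * (G 2 0 * x1 + G 2 1 * x2 + G 2 2 * x3) := by
  obtain ⟨i0, i11, i22, i33, i12, i21, i13, i31, i23, i32⟩ := rot_id (rot_of hG hd)
  set τ : ℝ := 1 + G 0 0 + G 1 1 + G 2 2 with hτ
  have c1 := (abs_nonneg _).trans b1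
  have c2 := (abs_nonneg _).trans b2
  have c3 := (abs_nonneg _).trans b3
  have hpos : 0 < τ := by rw [hτ]; linarith
  have hne : τ ≠ 0 := hpos.ne'
  have bound : ∀ {p q : ℝ}, |p| ≤ q → 4 * τ * q = 2 * τ ^ 2 - 2 * p ^ 2 →
      |8192 * p / τ| ≤ 3456 := by
    intro p q h1 h2
    have h3 : 4 * τ * |p| ≤ 2 * τ ^ 2 - 2 * |p| ^ 2 := by
      rw [sq_abs, ← h2]
      exact mul_le_mul_of_nonneg_left h1 (by linarith)
    have h4 : 0 ≤ |p| := abs_nonneg p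
    rw [abs_div, abs_mul, abs_of_pos hpos, abs_of_pos (by norm_num : (0 : ℝ) < 8192),
      div_le_iff₀ hpos]
    nlinarith
  refine ⟨8192 * (G 1 2 - G 2 1) / τ, 8192 * (G 2 0 - G 0 2) / τ, 8192 * (G 0 1 - G 1 0) / τ,
    bound b1 (by linear_combination i22 + i33), bound b2 (by linear_combination i11 + i33),
    bound b3 (by linear_combination i11 + i22), ?_⟩
  intro x1 x2 x3
  have hD : Dr (8192 * (G 1 2 - G 2 1) / τ) (8192 * (G 2 0 - G 0 2) / τ)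
      (8192 * (G 0 1 - G 1 0) / τ) = 67108864 * (4 / τ) := by
    unfold Dr
    field_simp
    linear_combination (-67108864) * i0
  rw [hD]
  unfold Nr
  refine ⟨?_, ?_, ?_⟩
  · field_simp
    linear_combination (-67108864) * (x1 * i11 + x2 * i12 + x3 * i13)
  · field_simp
    linear_combination (-67108864) * (x1 * i21 + x2 * i22 + x3 * i23)
  · field_simp
    linear_combination (-67108864) * (x1 * i31 + x2 * i32 + x3 * i33)

lemma Dr_pos (a1 a2 a3 : ℝ) : 0 < Dr a1 a2 a3 := by unfold Dr; positivity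

lemma killed_contra {u v : Fin 3 → ℝ} {G : Matrix (Fin 3) (Fin 3) ℝ} (hf : Free u v G)
    {a1 a2 a3 : ℝ}
    (hN : ∀ x1 x2 x3 : ℝ,
        Nr a1 a2 a3 x1 x2 x3 = Dr a1 a2 a3 * (G 0 0 * x1 + G 0 1 * x2 + G 0 2 * x3) ∧
        Nr a2 a3 a1 x2 x3 x1 = Dr a1 a2 a3 * (G 1 0 * x1 + G 1 1 * x2 + G 1 2 * x3) ∧
        Nr a3 a1 a2 x3 x1 x2 = Dr a1 a2 a3 * (G 2 0 * x1 + G 2 1 * x2 + G 2 2 * x3))
    (hk : Killed a1 a2 a3 (256 * u 0) (256 * u 1) (256 * u 2) (256 * v 0) (256 * v 1)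
      (256 * v 2)) : False := by
  obtain ⟨x, y, z, hw, k1, k2, k3⟩ := hk
  have hD := Dr_pos a1 a2 a3
  obtain ⟨e1, e2, e3⟩ := hN (x - 256 * u 0) (y - 256 * u 1) (z - 256 * u 2)
  rw [e1] at k1
  rw [e2] at k2
  rw [e3] at k3
  set D := Dr a1 a2 a3
  obtain ⟨j, hj⟩ := hf ![x / 256, y / 256, z / 256] (by simpa using hw)
  rw [Fin.sum_univ_three] at hj
  simp only [Matrix.cons_val_zero, Matrix.cons_val_one, Matrix.cons_val] at hj
  have key : ∀ {g1 g2 g3 w : ℝ}, |D * (g1 * (x - 256 * u 0) + g2 * (y - 256 * u 1)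
      + g3 * (z - 256 * u 2)) + 256 * w * D| < 128 * D →
      |g1 * (x / 256 - u 0) + g2 * (y / 256 - u 1) + g3 * (z / 256 - u 2) + w| < 1 / 2 := by
    intro g1 g2 g3 w h
    have e : D * (g1 * (x - 256 * u 0) + g2 * (y - 256 * u 1) + g3 * (z - 256 * u 2))
        + 256 * w * D = (256 * D) * (g1 * (x / 256 - u 0) + g2 * (y / 256 - u 1)
          + g3 * (z / 256 - u 2) + w) := by ring
    rw [e, abs_mul, abs_of_pos (by positivity : 0 < 256 * D)] at h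
    have h2 : (256 * D) * |g1 * (x / 256 - u 0) + g2 * (y / 256 - u 1)
          + g3 * (z / 256 - u 2) + w| < (256 * D) * (1 / 2) := by linarith
    exact lt_of_mul_lt_mul_left h2 (by positivity)
  fin_cases j
  · exact absurd hj (not_le.2 (key k1))
  · exact absurd hj (not_le.2 (key k2))
  · exact absurd hj (not_le.2 (key k3))

lemma pick {a0 a1 a2 c0 c1 c2 : Prop} [Decidable a0] [Decidable a1] [Decidable a2]
    [Decidable c0] [Decidable c1] [Decidable c2]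
    (h : 4 ≤ ((if a0 then 1 else 0) + (if a1 then 1 else 0) + (if a2 then 1 else 0)) +
      ((if c0 then 1 else 0) + (if c1 then 1 else 0) + (if c2 then 1 else 0)))
    (w : a1 → a0) :
    (a0 ∧ a1 ∧ a2 ∧ (c0 ∨ c1 ∨ c2)) ∨
      (a0 ∧ a1 ∧ ((c1 ∧ c2) ∨ (c0 ∧ c2) ∨ (c0 ∧ c1))) ∨
      (a0 ∧ a2 ∧ ((c1 ∧ c2) ∨ (c0 ∧ c2) ∨ (c0 ∧ c1))) ∨
      (a2 ∧ c0 ∧ c1 ∧ c2) ∨ (a0 ∧ c0 ∧ c1 ∧ c2) := by
  by_cases h0 : a0 <;> by_cases h1 : a1 <;> by_cases h2 : a2 <;> by_cases h3 : c0 <;>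
    by_cases h4 : c1 <;> by_cases h5 : c2 <;> simp_all

lemma no_conf_wedge {u v : Fin 3 → ℝ} {G : Matrix (Fin 3) (Fin 3) ℝ} (h : Conf u v G)
    (hp : ∀ k, 0 ≤ u k) (hw : u 1 ≤ u 0) : False := by
  obtain ⟨v, G, h, hd, b1, b2, b3⟩ := conf_max h
  obtain ⟨a1, a2, a3, ha1, ha2, ha3, hN⟩ := params h.orth hd b1 b2 b3
  refine killed_contra h.free hN (all_charts ha1 ha2 ha3 (h.hu 0) (h.hu 1) (h.hu 2) (hp 0) (hp 1)
    (hp 2) hw (h.hv 0) (h.hv 1) (h.hv 2) ?_)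
  have hfour := h.four
  rw [Fin.sum_univ_three, Fin.sum_univ_three, abs_of_nonneg (hp 0), abs_of_nonneg (hp 1),
    abs_of_nonneg (hp 2)] at hfour
  have w : u 1 = 1 / 2 → u 0 = 1 / 2 := by
    intro e
    have := h.hu 0
    rw [abs_of_nonneg (hp 0)] at this
    exact le_antisymm this (by rw [← e]; exact hw)
  exact pick hfour w

/-- **No position avoids the cubes.** -/
theorem no_conf {u v : Fin 3 → ℝ} {G : Matrix (Fin 3) (Fin 3) ℝ} (h : Conf u v G) : False := by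
  have hs : ∃ s : Fin 3 → ℝ, (∀ k, s k = 1 ∨ s k = -1) ∧ ∀ k, 0 ≤ s k * u k := by
    refine ⟨fun k => if 0 ≤ u k then 1 else -1, fun k => ?_, fun k => ?_⟩
    · by_cases hk : 0 ≤ u k
      · left; simp [hk]
      · right; simp [hk]
    · by_cases hk : 0 ≤ u k
      · simp [hk]
      · simp only [hk, if_false]; linarith [not_le.1 hk]
  obtain ⟨s, hs1, hs2⟩ := hs
  have h1 := conf_flip h hs1
  by_cases hw : s 1 * u 1 ≤ s 0 * u 0
  · exact no_conf_wedge h1 hs2 hw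
  · have h2 := conf_swap h1
    have e0 : Equiv.swap (0 : Fin 3) 1 0 = 1 := by decide
    have e1 : Equiv.swap (0 : Fin 3) 1 1 = 0 := by decide
    refine no_conf_wedge h2 (fun k => hs2 _) ?_
    simp only [e0, e1]
    exact (not_le.1 hw).le

end Pool.Agent.Cube71
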