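import Mathlib

/-! Rational parameters of a rotation matrix. -/

namespace Pool.Agent.Cube71

open Matrix

/-- cofactor identities -/
lemma cof {G : Matrix (Fin 3) (Fin 3) ℝ} (hG : G * Gᵀ = 1) (hd : G.det = 1) :
    G.adjugate = Gᵀ := by
  have h1 : Gᵀ * G = 1 := mul_eq_one_comm.1 hG
  calc G.adjugate = (Gᵀ * G) * G.adjugate := by rw [h1, one_mul]
    _ = Gᵀ * (G * G.adjugate) := by rw [Matrix.mul_assoc]
    _ = Gᵀ := by rw [Matrix.mul_adjugate, hd, one_smul, Matrix.mul_one]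

structure Rot (g11 g12 g13 g21 g22 g23 g31 g32 g33 : ℝ) : Prop where
  c11 : g11 = g22 * g33 - g23 * g32
  c12 : g12 = g23 * g31 - g21 * g33
  c13 : g13 = g21 * g32 - g22 * g31
  c21 : g21 = g13 * g32 - g12 * g33
  c22 : g22 = g11 * g33 - g13 * g31
  c23 : g23 = g12 * g31 - g11 * g32
  c31 : g31 = g12 * g23 - g13 * g22
  c32 : g32 = g13 * g21 - g11 * g23
  c33 : g33 = g11 * g22 - g12 * g21
  r11 : g11 ^ 2 + g12 ^ 2 + g13 ^ 2 = 1
  r22 : g21 ^ 2 + g22 ^ 2 + g23 ^ 2 = 1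
  r33 : g31 ^ 2 + g32 ^ 2 + g33 ^ 2 = 1
  r12 : g11 * g21 + g12 * g22 + g13 * g23 = 0
  r13 : g11 * g31 + g12 * g32 + g13 * g33 = 0
  r23 : g21 * g31 + g22 * g32 + g23 * g33 = 0
  k11 : g11 ^ 2 + g21 ^ 2 + g31 ^ 2 = 1
  k22 : g12 ^ 2 + g22 ^ 2 + g32 ^ 2 = 1
  k33 : g13 ^ 2 + g23 ^ 2 + g33 ^ 2 = 1
  k12 : g11 * g12 + g21 * g22 + g31 * g32 = 0
  k13 : g11 * g13 + g21 * g23 + g31 * g33 = 0
  k23 : g12 * g13 + g22 * g23 + g32 * g33 = 0

lemma rot_of {G : Matrix (Fin 3) (Fin 3) ℝ} (hG : G * Gᵀ = 1) (hd : G.det = 1) :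
    Rot (G 0 0) (G 0 1) (G 0 2) (G 1 0) (G 1 1) (G 1 2) (G 2 0) (G 2 1) (G 2 2) := by
  have h1 : Gᵀ * G = 1 := mul_eq_one_comm.1 hG
  have hc := cof hG hd
  rw [Matrix.adjugate_fin_three] at hc
  have e : ∀ i j, (!![G 1 1 * G 2 2 - G 1 2 * G 2 1,
    -(G 0 1 * G 2 2) + G 0 2 * G 2 1,
    G 0 1 * G 1 2 - G 0 2 * G 1 1;
    -(G 1 0 * G 2 2) + G 1 2 * G 2 0,
    G 0 0 * G 2 2 - G 0 2 * G 2 0,
    -(G 0 0 * G 1 2) + G 0 2 * G 1 0;
    G 1 0 * G 2 1 - G 1 1 * G 2 0,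
    -(G 0 0 * G 2 1) + G 0 1 * G 2 0,
    G 0 0 * G 1 1 - G 0 1 * G 1 0] : Matrix (Fin 3) (Fin 3) ℝ) i j = G j i := fun i j => by
      rw [hc]; rfl
  have o : ∀ i j, (G * Gᵀ) i j = (1 : Matrix (Fin 3) (Fin 3) ℝ) i j := fun i j => by rw [hG]
  have p : ∀ i j, (Gᵀ * G) i j = (1 : Matrix (Fin 3) (Fin 3) ℝ) i j := fun i j => by rw [h1]
  simp only [Matrix.mul_apply, Fin.sum_univ_three, Matrix.transpose_apply] at o p
  have e00 := e 0 0
  have e01 := e 0 1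
  have e02 := e 0 2
  have e10 := e 1 0
  have e11 := e 1 1
  have e12 := e 1 2
  have e20 := e 2 0
  have e21 := e 2 1
  have e22 := e 2 2
  have o00 := o 0 0
  have o11 := o 1 1
  have o22 := o 2 2
  have o01 := o 0 1
  have o02 := o 0 2
  have o12 := o 1 2
  have p00 := p 0 0
  have p11 := p 1 1
  have p22 := p 2 2
  have p01 := p 0 1
  have p02 := p 0 2
  have p12 := p 1 2
  simp at e00 e01 e02 e10 e11 e12 e20 e21 e22 o00 o11 o22 o01 o02 o12 p00 p11 p22 p01 p02 p12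
  constructor <;> linarith

variable {g11 g12 g13 g21 g22 g23 g31 g32 g33 : ℝ}

/-- The entries of a rotation matrix from its rational parameters, cleared of denominators. -/
lemma rot_id (h : Rot g11 g12 g13 g21 g22 g23 g31 g32 g33) :
    4 * (1 + g11 + g22 + g33) = (1 + g11 + g22 + g33) ^ 2 + (g23 - g32) ^ 2 + (g31 - g13) ^ 2
      + (g12 - g21) ^ 2 ∧
    4 * (1 + g11 + g22 + g33) * g11 = (1 + g11 + g22 + g33) ^ 2 + (g23 - g32) ^ 2
      - (g31 - g13) ^ 2 - (g12 - g21) ^ 2 ∧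
    4 * (1 + g11 + g22 + g33) * g22 = (1 + g11 + g22 + g33) ^ 2 - (g23 - g32) ^ 2
      + (g31 - g13) ^ 2 - (g12 - g21) ^ 2 ∧
    4 * (1 + g11 + g22 + g33) * g33 = (1 + g11 + g22 + g33) ^ 2 - (g23 - g32) ^ 2
      - (g31 - g13) ^ 2 + (g12 - g21) ^ 2 ∧
    4 * (1 + g11 + g22 + g33) * g12 =
      2 * ((g23 - g32) * (g31 - g13) + (1 + g11 + g22 + g33) * (g12 - g21)) ∧
    4 * (1 + g11 + g22 + g33) * g21 =
      2 * ((g23 - g32) * (g31 - g13) - (1 + g11 + g22 + g33) * (g12 - g21)) ∧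
    4 * (1 + g11 + g22 + g33) * g13 =
      2 * ((g23 - g32) * (g12 - g21) - (1 + g11 + g22 + g33) * (g31 - g13)) ∧
    4 * (1 + g11 + g22 + g33) * g31 =
      2 * ((g23 - g32) * (g12 - g21) + (1 + g11 + g22 + g33) * (g31 - g13)) ∧
    4 * (1 + g11 + g22 + g33) * g23 =
      2 * ((g31 - g13) * (g12 - g21) + (1 + g11 + g22 + g33) * (g23 - g32)) ∧
    4 * (1 + g11 + g22 + g33) * g32 =
      2 * ((g31 - g13) * (g12 - g21) - (1 + g11 + g22 + g33) * (g23 - g32)) := by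
  obtain ⟨c11, c12, c13, c21, c22, c23, c31, c32, c33, r11, r22, r33, r12, r13, r23,
    k11, k22, k33, k12, k13, k23⟩ := h
  have D1 : 4 * (1 + g11 + g22 + g33) * g11 = (1 + g11 + g22 + g33) ^ 2 + (g23 - g32) ^ 2
      - (g31 - g13) ^ 2 - (g12 - g21) ^ 2 := by
    linear_combination 2 * c11 - 2 * c22 - 2 * c33 - r22 - r33 + 2 * k11 + r11
  have D2 : 4 * (1 + g11 + g22 + g33) * g22 = (1 + g11 + g22 + g33) ^ 2 - (g23 - g32) ^ 2
      + (g31 - g13) ^ 2 - (g12 - g21) ^ 2 := by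
    linear_combination 2 * c22 - 2 * c11 - 2 * c33 - r11 - r33 + 2 * k22 + r22
  have D3 : 4 * (1 + g11 + g22 + g33) * g33 = (1 + g11 + g22 + g33) ^ 2 - (g23 - g32) ^ 2
      - (g31 - g13) ^ 2 + (g12 - g21) ^ 2 := by
    linear_combination 2 * c33 - 2 * c11 - 2 * c22 - r11 - r22 + 2 * k33 + r33
  have S12 : (1 + g11 + g22 + g33) * (g12 + g21) = (g23 - g32) * (g31 - g13) := by
    linear_combination c12 + c21 + r12 + k12
  have S13 : (1 + g11 + g22 + g33) * (g13 + g31) = (g23 - g32) * (g12 - g21) := by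
    linear_combination c13 + c31 + r13 + k13
  have S23 : (1 + g11 + g22 + g33) * (g23 + g32) = (g31 - g13) * (g12 - g21) := by
    linear_combination c23 + c32 + r23 + k23
  refine ⟨by linear_combination -D1 - D2 - D3, D1, D2, D3, by linear_combination 2 * S12,
    by linear_combination 2 * S12, by linear_combination 2 * S13, by linear_combination 2 * S13,
    by linear_combination 2 * S23, by linear_combination 2 * S23⟩

end Pool.Agent.Cube71
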