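import Pool.Agent.Cube71.Geo
import Pool.Agent.Cube71.Contact
import Pool.Agent.Cube71.NoConf

/-! The configuration of six cubes. -/

namespace Pool.Agent.Cube71

open Matrix

/-- `1/√2` -/
noncomputable def q : ℝ := √2 / 2

lemma q_sq : q * q = 1 / 2 := by
  unfold q
  have := Real.mul_self_sqrt (show (0 : ℝ) ≤ 2 by norm_num)
  linear_combination this / 4

lemma q_pos : 0 < q := by unfold q; positivity

/-- frame of the top and bottom cubes -/
noncomputable def GT : Matrix (Fin 3) (Fin 3) ℝ := !![q, q, 0; q, -q, 0; 0, 0, 1]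

/-- frame of the cube at the vertical edge in direction `(e, d)` -/
noncomputable def GS (e d : ℝ) : Matrix (Fin 3) (Fin 3) ℝ :=
  !![q * e, -(q * d), 0; e / 2, d / 2, q; e / 2, d / 2, -q]

/-- the top (`s = 1`) and bottom (`s = -1`) cubes -/
noncomputable def top (s : ℝ) : Set E3 := cubeOf ![1 / 2, 1 / 2, 1 / 2 + s] GT

/-- the cube at the vertical edge in direction `(e, d)` -/
noncomputable def edge (e d : ℝ) : Set E3 := cubeOf ![1 / 2 + e, 1 / 2 + d, 1 / 2] (GS e d)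

lemma GT_orth : GT * GTᵀ = 1 := by
  have h := q_sq
  ext i j
  rw [Matrix.mul_apply, Fin.sum_univ_three]
  fin_cases i <;> fin_cases j <;> simp [GT] <;> linarith

lemma GS_orth {e d : ℝ} (he : e = 1 ∨ e = -1) (hd : d = 1 ∨ d = -1) :
    GS e d * (GS e d)ᵀ = 1 := by
  have h := q_sq
  ext i j
  rw [Matrix.mul_apply, Fin.sum_univ_three]
  rcases he with rfl | rfl <;> rcases hd with rfl | rfl <;> fin_cases i <;> fin_cases j <;>
    simp [GS] <;> linarith

lemma all3 {P : Fin 3 → Prop} : (∀ j, P j) ↔ P 0 ∧ P 1 ∧ P 2 := by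
  constructor
  · intro h; exact ⟨h 0, h 1, h 2⟩
  · rintro ⟨h0, h1, h2⟩ j
    fin_cases j <;> assumption

lemma mem_top {s : ℝ} {w : E3} : w ∈ top s ↔
    |q * ((w 0 - 1/2) + (w 1 - 1/2))| ≤ 1/2 ∧ |q * ((w 0 - 1/2) - (w 1 - 1/2))| ≤ 1/2 ∧
      |w 2 - 1/2 - s| ≤ 1/2 := by
  have s0 : ∑ k, GT 0 k * (w k - (![1 / 2, 1 / 2, 1 / 2 + s] : Fin 3 → ℝ) k)
      = q * ((w 0 - 1/2) + (w 1 - 1/2)) := by
    simp [GT, Fin.sum_univ_three]; ring
  have s1 : ∑ k, GT 1 k * (w k - (![1 / 2, 1 / 2, 1 / 2 + s] : Fin 3 → ℝ) k)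
      = q * ((w 0 - 1/2) - (w 1 - 1/2)) := by
    simp [GT, Fin.sum_univ_three]; ring
  have s2 : ∑ k, GT 2 k * (w k - (![1 / 2, 1 / 2, 1 / 2 + s] : Fin 3 → ℝ) k)
      = w 2 - 1/2 - s := by
    simp [GT, Fin.sum_univ_three]; ring
  unfold top cubeOf
  rw [Set.mem_ofPred_eq, all3, s0, s1, s2]

lemma mem_edge {e d : ℝ} {w : E3} : w ∈ edge e d ↔
    |q * (e * (w 0 - 1/2 - e) - d * (w 1 - 1/2 - d))| ≤ 1/2 ∧
    |(e * (w 0 - 1/2 - e) + d * (w 1 - 1/2 - d)) / 2 + q * (w 2 - 1/2)| ≤ 1/2 ∧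
    |(e * (w 0 - 1/2 - e) + d * (w 1 - 1/2 - d)) / 2 - q * (w 2 - 1/2)| ≤ 1/2 := by
  have s0 : ∑ k, GS e d 0 k * (w k - (![1 / 2 + e, 1 / 2 + d, 1 / 2] : Fin 3 → ℝ) k)
      = q * (e * (w 0 - 1/2 - e) - d * (w 1 - 1/2 - d)) := by
    simp [GS, Fin.sum_univ_three]; ring
  have s1 : ∑ k, GS e d 1 k * (w k - (![1 / 2 + e, 1 / 2 + d, 1 / 2] : Fin 3 → ℝ) k)
      = (e * (w 0 - 1/2 - e) + d * (w 1 - 1/2 - d)) / 2 + q * (w 2 - 1/2) := by
    simp [GS, Fin.sum_univ_three]; ring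
  have s2 : ∑ k, GS e d 2 k * (w k - (![1 / 2 + e, 1 / 2 + d, 1 / 2] : Fin 3 → ℝ) k)
      = (e * (w 0 - 1/2 - e) + d * (w 1 - 1/2 - d)) / 2 - q * (w 2 - 1/2) := by
    simp [GS, Fin.sum_univ_three]; ring
  unfold edge cubeOf
  rw [Set.mem_ofPred_eq, all3, s0, s1, s2]

lemma q_lt : q < 3 / 4 := by nlinarith [q_sq, q_pos]

lemma q_gt : 7 / 10 < q := by nlinarith [q_sq, q_pos]

/-- points of the top or bottom cube -/
lemma top_bound {s : ℝ} {w : E3} (h : w ∈ top s) :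
    |(w 0 - 1/2) + (w 1 - 1/2)| < 3 / 4 ∧ |(w 0 - 1/2) - (w 1 - 1/2)| < 3 / 4 := by
  obtain ⟨h1, h2, _⟩ := mem_top.1 h
  rw [abs_mul, abs_of_pos q_pos] at h1 h2
  have := q_gt
  constructor
  · by_contra hc
    push Not at hc
    nlinarith
  · by_contra hc
    push Not at hc
    nlinarith

/-- points of the edge cubes -/
lemma edge_bound {e d : ℝ} (he : e = 1 ∨ e = -1) (hd : d = 1 ∨ d = -1) {w : E3}
    (h : w ∈ edge e d) :
    1 ≤ e * (w 0 - 1/2) + d * (w 1 - 1/2) ∧ 0 < e * (w 0 - 1/2) ∧ 0 < d * (w 1 - 1/2) := by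
  obtain ⟨h1, h2, h3⟩ := mem_edge.1 h
  have ee : e * e = 1 := by rcases he with rfl | rfl <;> norm_num
  have dd : d * d = 1 := by rcases hd with rfl | rfl <;> norm_num
  rw [abs_mul, abs_of_pos q_pos] at h1
  rw [abs_le] at h2 h3
  have g1 : 1 ≤ e * (w 0 - 1/2) + d * (w 1 - 1/2) := by nlinarith [h2.1, h3.1]
  have g2 : |e * (w 0 - 1/2) - d * (w 1 - 1/2)| < 1 := by
    have e1 : e * (w 0 - 1/2 - e) - d * (w 1 - 1/2 - d)
        = e * (w 0 - 1/2) - d * (w 1 - 1/2) := by linear_combination dd - ee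
    rw [e1] at h1
    by_contra hc
    push Not at hc
    nlinarith [q_gt]
  rw [abs_lt] at g2
  exact ⟨g1, by linarith [g2.1], by linarith [g2.2]⟩

/-- the six cubes -/
noncomputable def cube6 : Fin 6 → Set E3 :=
  ![top 1, top (-1), edge 1 1, edge 1 (-1), edge (-1) 1, edge (-1) (-1)]

lemma unit6 (i : Fin 6) : IsUnitCube (cube6 i) := by
  fin_cases i
  · exact isUnitCube_cubeOf _ GT_orth
  · exact isUnitCube_cubeOf _ GT_orth
  · exact isUnitCube_cubeOf _ (GS_orth (Or.inl rfl) (Or.inl rfl))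
  · exact isUnitCube_cubeOf _ (GS_orth (Or.inl rfl) (Or.inr rfl))
  · exact isUnitCube_cubeOf _ (GS_orth (Or.inr rfl) (Or.inl rfl))
  · exact isUnitCube_cubeOf _ (GS_orth (Or.inr rfl) (Or.inr rfl))

lemma top_touch {s : ℝ} (hs : s = 1 ∨ s = -1) : Touch (top s) C0 := by
  constructor
  · rw [C0_eq, interior_A, Set.disjoint_left]
    intro x hx hx'
    have h := (mem_top.1 (interior_subset hx)).2.2
    obtain ⟨_, _, h1, h2⟩ := hx'
    rw [abs_le] at h
    rcases hs with rfl | rfl <;> linarith [h.1, h.2]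
  · refine ⟨pt (1/2) (1/2) (1/2 + s / 2), ?_, ?_⟩
    · rw [mem_top]
      simp only [pt_zero, pt_one, pt_two]
      rcases hs with rfl | rfl <;> norm_num
    · rw [C0_eq]
      simp only [A, Set.mem_ofPred_eq, pt_zero, pt_one, pt_two]
      rcases hs with rfl | rfl <;> norm_num

lemma edge_touch {e d : ℝ} (he : e = 1 ∨ e = -1) (hd : d = 1 ∨ d = -1) :
    Touch (edge e d) C0 := by
  constructor
  · rw [C0_eq, interior_A, Set.disjoint_left]
    intro x hx hx'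
    have h := (edge_bound he hd (interior_subset hx)).1
    obtain ⟨⟨h1, h2⟩, ⟨h3, h4⟩, _⟩ := hx'
    rcases he with rfl | rfl <;> rcases hd with rfl | rfl <;> linarith
  · refine ⟨pt (1/2 + e / 2) (1/2 + d / 2) (1/2), ?_, ?_⟩
    · rw [mem_edge]
      simp only [pt_zero, pt_one, pt_two]
      rcases he with rfl | rfl <;> rcases hd with rfl | rfl <;> norm_num
    · rw [C0_eq]
      simp only [A, Set.mem_ofPred_eq, pt_zero, pt_one, pt_two]
      rcases he with rfl | rfl <;> rcases hd with rfl | rfl <;> norm_num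

lemma touch6 (i : Fin 6) : Touch (cube6 i) C0 := by
  fin_cases i
  · exact top_touch (Or.inl rfl)
  · exact top_touch (Or.inr rfl)
  · exact edge_touch (Or.inl rfl) (Or.inl rfl)
  · exact edge_touch (Or.inl rfl) (Or.inr rfl)
  · exact edge_touch (Or.inr rfl) (Or.inl rfl)
  · exact edge_touch (Or.inr rfl) (Or.inr rfl)

lemma top_edge {s e d : ℝ} (he : e = 1 ∨ e = -1) (hd : d = 1 ∨ d = -1) {w : E3}
    (h : w ∈ top s) (h' : w ∈ edge e d) : False := by
  obtain ⟨h1, h2⟩ := top_bound h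
  have h3 := (edge_bound he hd h').1
  rw [abs_lt] at h1 h2
  rcases he with rfl | rfl <;> rcases hd with rfl | rfl <;>
    linarith [h1.1, h1.2, h2.1, h2.2]

lemma top_top {w : E3} (h : w ∈ top 1) (h' : w ∈ top (-1)) : False := by
  have h1 := (mem_top.1 h).2.2
  have h2 := (mem_top.1 h').2.2
  rw [abs_le] at h1 h2
  linarith [h1.1, h2.2]

lemma edge_edge {e d e' d' : ℝ} (he : e = 1 ∨ e = -1) (hd : d = 1 ∨ d = -1)
    (he' : e' = 1 ∨ e' = -1) (hd' : d' = 1 ∨ d' = -1) {w : E3}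
    (h : w ∈ edge e d) (h' : w ∈ edge e' d') : e = e' ∧ d = d' := by
  obtain ⟨_, h2, h3⟩ := edge_bound he hd h
  obtain ⟨_, g2, g3⟩ := edge_bound he' hd' h'
  constructor
  · rcases he with rfl | rfl <;> rcases he' with rfl | rfl <;> first | rfl | (exfalso; linarith)
  · rcases hd with rfl | rfl <;> rcases hd' with rfl | rfl <;> first | rfl | (exfalso; linarith)

lemma mem6 {i : Fin 6} {w : E3} (h : w ∈ cube6 i) :
    (i = 0 ∧ w ∈ top 1) ∨ (i = 1 ∧ w ∈ top (-1)) ∨ (i = 2 ∧ w ∈ edge 1 1) ∨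
    (i = 3 ∧ w ∈ edge 1 (-1)) ∨ (i = 4 ∧ w ∈ edge (-1) 1) ∨ (i = 5 ∧ w ∈ edge (-1) (-1)) := by
  match i, h with
  | 0, h => exact Or.inl ⟨rfl, h⟩
  | 1, h => exact Or.inr (Or.inl ⟨rfl, h⟩)
  | 2, h => exact Or.inr (Or.inr (Or.inl ⟨rfl, h⟩))
  | 3, h => exact Or.inr (Or.inr (Or.inr (Or.inl ⟨rfl, h⟩)))
  | 4, h => exact Or.inr (Or.inr (Or.inr (Or.inr (Or.inl ⟨rfl, h⟩))))
  | 5, h => exact Or.inr (Or.inr (Or.inr (Or.inr (Or.inr ⟨rfl, h⟩))))

lemma disj6 {i j : Fin 6} (hij : i ≠ j) : Disjoint (cube6 i) (cube6 j) := by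
  rw [Set.disjoint_left]
  intro w hi hj
  have n1 : (1 : ℝ) = 1 ∨ (1 : ℝ) = -1 := Or.inl rfl
  have n2 : (-1 : ℝ) = 1 ∨ (-1 : ℝ) = -1 := Or.inr rfl
  have key : ∀ {e d e' d' : ℝ}, (e = 1 ∨ e = -1) → (d = 1 ∨ d = -1) → (e' = 1 ∨ e' = -1) →
      (d' = 1 ∨ d' = -1) → w ∈ edge e d → w ∈ edge e' d' → ¬ (e = e' ∧ d = d') → False :=
    fun he hd he' hd' h h' hn => hn (edge_edge he hd he' hd' h h')
  rcases mem6 hi with ⟨hi0, hi⟩ | ⟨hi0, hi⟩ | ⟨hi0, hi⟩ | ⟨hi0, hi⟩ | ⟨hi0, hi⟩ | ⟨hi0, hi⟩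
  · rcases mem6 hj with ⟨hj0, hj⟩ | ⟨hj0, hj⟩ | ⟨hj0, hj⟩ | ⟨hj0, hj⟩ | ⟨hj0, hj⟩ | ⟨hj0, hj⟩
    · exact hij (hi0.trans hj0.symm)
    · exact top_top hi hj
    · exact top_edge n1 n1 hi hj
    · exact top_edge n1 n2 hi hj
    · exact top_edge n2 n1 hi hj
    · exact top_edge n2 n2 hi hj
  · rcases mem6 hj with ⟨hj0, hj⟩ | ⟨hj0, hj⟩ | ⟨hj0, hj⟩ | ⟨hj0, hj⟩ | ⟨hj0, hj⟩ | ⟨hj0, hj⟩
    · exact top_top hj hi
    · exact hij (hi0.trans hj0.symm)
    · exact top_edge n1 n1 hi hj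
    · exact top_edge n1 n2 hi hj
    · exact top_edge n2 n1 hi hj
    · exact top_edge n2 n2 hi hj
  · rcases mem6 hj with ⟨hj0, hj⟩ | ⟨hj0, hj⟩ | ⟨hj0, hj⟩ | ⟨hj0, hj⟩ | ⟨hj0, hj⟩ | ⟨hj0, hj⟩
    · exact top_edge n1 n1 hj hi
    · exact top_edge n1 n1 hj hi
    · exact hij (hi0.trans hj0.symm)
    · exact key n1 n1 n1 n2 hi hj (by norm_num)
    · exact key n1 n1 n2 n1 hi hj (by norm_num)
    · exact key n1 n1 n2 n2 hi hj (by norm_num)
  · rcases mem6 hj with ⟨hj0, hj⟩ | ⟨hj0, hj⟩ | ⟨hj0, hj⟩ | ⟨hj0, hj⟩ | ⟨hj0, hj⟩ | ⟨hj0, hj⟩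
    · exact top_edge n1 n2 hj hi
    · exact top_edge n1 n2 hj hi
    · exact key n1 n2 n1 n1 hi hj (by norm_num)
    · exact hij (hi0.trans hj0.symm)
    · exact key n1 n2 n2 n1 hi hj (by norm_num)
    · exact key n1 n2 n2 n2 hi hj (by norm_num)
  · rcases mem6 hj with ⟨hj0, hj⟩ | ⟨hj0, hj⟩ | ⟨hj0, hj⟩ | ⟨hj0, hj⟩ | ⟨hj0, hj⟩ | ⟨hj0, hj⟩
    · exact top_edge n2 n1 hj hi
    · exact top_edge n2 n1 hj hi
    · exact key n2 n1 n1 n1 hi hj (by norm_num)
    · exact key n2 n1 n1 n2 hi hj (by norm_num)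
    · exact hij (hi0.trans hj0.symm)
    · exact key n2 n1 n2 n2 hi hj (by norm_num)
  · rcases mem6 hj with ⟨hj0, hj⟩ | ⟨hj0, hj⟩ | ⟨hj0, hj⟩ | ⟨hj0, hj⟩ | ⟨hj0, hj⟩ | ⟨hj0, hj⟩
    · exact top_edge n2 n2 hj hi
    · exact top_edge n2 n2 hj hi
    · exact key n2 n2 n1 n1 hi hj (by norm_num)
    · exact key n2 n2 n1 n2 hi hj (by norm_num)
    · exact key n2 n2 n2 n1 hi hj (by norm_num)
    · exact hij (hi0.trans hj0.symm)

lemma nonempty6 (i : Fin 6) : (cube6 i).Nonempty := (touch6 i).2.left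

lemma inj6 : Function.Injective cube6 := by
  intro i j h
  by_contra hne
  have h1 := disj6 hne
  rw [h, disjoint_self] at h1
  exact (nonempty6 j).ne_empty h1

lemma q_abs {x : ℝ} (h : 2 * |x| ^ 2 ≤ 1) : q * |x| ≤ 1 / 2 := by
  have h0 := abs_nonneg x
  by_contra hc
  push Not at hc
  have h1 : (1 / 2) * (1 / 2) < (q * |x|) * (q * |x|) := by nlinarith
  nlinarith [q_sq]

/-- the union described by `Wp` is contained in the union of the seven cubes -/
lemma cover {w : E3} (h : Wp (w 0 - 1/2) (w 1 - 1/2) (w 2 - 1/2)) :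
    w ∈ C0 ∨ ∃ i, w ∈ cube6 i := by
  set x := w 0 - 1/2 with hx
  set y := w 1 - 1/2 with hy
  set z := w 2 - 1/2 with hz
  rcases h with ⟨h1, h2, h3⟩ | ⟨h1, h2, h3⟩ | ⟨h1, h2, h3⟩
  · left
    rw [C0_eq]
    rw [abs_le] at h1 h2 h3
    exact ⟨⟨by linarith [h1.1], by linarith [h1.2]⟩, ⟨by linarith [h2.1], by linarith [h2.2]⟩,
      ⟨by linarith [h3.1], by linarith [h3.2]⟩⟩
  · right
    have a1 : 2 * |x + y| ^ 2 ≤ 1 := by
      have := abs_add_le x y
      nlinarith [abs_nonneg (x + y), abs_nonneg x, abs_nonneg y]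
    have a2 : 2 * |x - y| ^ 2 ≤ 1 := by
      have := abs_sub x y
      nlinarith [abs_nonneg (x - y), abs_nonneg x, abs_nonneg y]
    have b1 := q_abs a1
    have b2 := q_abs a2
    rcases le_total 0 z with hz0 | hz0
    · refine ⟨0, mem_top.2 ⟨?_, ?_, ?_⟩⟩
      · rw [abs_mul, abs_of_pos q_pos]; exact b1
      · rw [abs_mul, abs_of_pos q_pos]; exact b2
      · rw [← hz]
        rw [abs_of_nonneg hz0] at h1 h2
        rw [abs_le]; constructor <;> linarith
    · refine ⟨1, mem_top.2 ⟨?_, ?_, ?_⟩⟩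
      · rw [abs_mul, abs_of_pos q_pos]; exact b1
      · rw [abs_mul, abs_of_pos q_pos]; exact b2
      · rw [← hz]
        rw [abs_of_nonpos hz0] at h1 h2
        rw [abs_le]; constructor <;> linarith
  · right
    have key : ∀ e d : ℝ, (e = 1 ∨ e = -1) → (d = 1 ∨ d = -1) → e * x = |x| → d * y = |y| →
        w ∈ edge e d := by
      intro e d he hd hex hdy
      have ee : e * e = 1 := by rcases he with rfl | rfl <;> norm_num
      have dd : d * d = 1 := by rcases hd with rfl | rfl <;> norm_num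
      rw [mem_edge, ← hx, ← hy, ← hz]
      have e1 : e * (x - e) - d * (y - d) = |x| - |y| := by
        linear_combination hex - hdy - ee + dd
      have e2 : e * (x - e) + d * (y - d) = |x| + |y| - 2 := by
        linear_combination hex + hdy - ee - dd
      rw [e1, e2]
      have a1 : 2 * |(|x| - |y|)| ^ 2 ≤ 1 := by rw [sq_abs]; exact h2
      have b1 := q_abs a1
      have b3 : q * |z| ≤ (1 - |(|x| + |y| - 2)|) / 2 := by
        have hm : 0 ≤ 1 - |(|x| + |y| - 2)| := by linarith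
        by_contra hc
        push Not at hc
        have := q_pos
        have h5 : ((1 - |(|x| + |y| - 2)|) / 2) * ((1 - |(|x| + |y| - 2)|) / 2)
            < (q * |z|) * (q * |z|) := by
          apply mul_lt_mul'' hc hc <;> linarith
        nlinarith [q_sq]
      have b4 : |q * z| ≤ (1 - |(|x| + |y| - 2)|) / 2 := by
        rw [abs_mul, abs_of_pos q_pos]; exact b3
      have m := abs_le.1 b4
      have n := neg_abs_le (|x| + |y| - 2)
      have n' := le_abs_self (|x| + |y| - 2)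
      refine ⟨?_, ?_, ?_⟩
      · rw [abs_mul, abs_of_pos q_pos]; exact b1
      · rw [abs_le]; constructor <;> linarith [m.1, m.2]
      · rw [abs_le]; constructor <;> linarith [m.1, m.2]
    rcases le_total 0 x with hx0 | hx0 <;> rcases le_total 0 y with hy0 | hy0
    · exact ⟨2, key 1 1 (Or.inl rfl) (Or.inl rfl) (by rw [abs_of_nonneg hx0]; ring)
        (by rw [abs_of_nonneg hy0]; ring)⟩
    · exact ⟨3, key 1 (-1) (Or.inl rfl) (Or.inr rfl) (by rw [abs_of_nonneg hx0]; ring)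
        (by rw [abs_of_nonpos hy0]; ring)⟩
    · exact ⟨4, key (-1) 1 (Or.inr rfl) (Or.inl rfl) (by rw [abs_of_nonpos hx0]; ring)
        (by rw [abs_of_nonneg hy0]; ring)⟩
    · exact ⟨5, key (-1) (-1) (Or.inr rfl) (Or.inr rfl) (by rw [abs_of_nonpos hx0]; ring)
        (by rw [abs_of_nonpos hy0]; ring)⟩

/-- the coordinate functionals and the frame functionals -/
noncomputable def phi (G : Matrix (Fin 3) (Fin 3) ℝ) : Fin 3 ⊕ Fin 3 → E3 →ₗ[ℝ] ℝ
  | Sum.inl k => (EuclideanSpace.proj k : E3 →L[ℝ] ℝ).toLinearMap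
  | Sum.inr j => ∑ k, G j k • (EuclideanSpace.proj k : E3 →L[ℝ] ℝ).toLinearMap

/-- the offsets -/
noncomputable def off (c : Fin 3 → ℝ) (G : Matrix (Fin 3) (Fin 3) ℝ) : Fin 3 ⊕ Fin 3 → ℝ
  | Sum.inl _ => 1 / 2
  | Sum.inr j => ∑ k, G j k * c k

lemma phi_inl (G : Matrix (Fin 3) (Fin 3) ℝ) (k : Fin 3) (x : E3) :
    phi G (Sum.inl k) x = x k := rfl

lemma phi_inr (G : Matrix (Fin 3) (Fin 3) ℝ) (j : Fin 3) (x : E3) :
    phi G (Sum.inr j) x = ∑ k, G j k * x k := by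
  simp [phi]

lemma form_inr (c : Fin 3 → ℝ) (G : Matrix (Fin 3) (Fin 3) ℝ) (j : Fin 3) (x : E3) :
    phi G (Sum.inr j) x - off c G (Sum.inr j) = ∑ k, G j k * (x k - c k) := by
  rw [phi_inr]
  show _ - ∑ k, G j k * c k = _
  rw [← Finset.sum_sub_distrib]
  exact Finset.sum_congr rfl fun k _ => by ring

/-- **The six cubes are saturated.** -/
theorem no_more {Q : Set E3} (hQ : IsUnitCube Q) (ht : Touch Q C0)
    (hd : ∀ i, Disjoint (interior Q) (interior (cube6 i))) : False := by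
  classical
  obtain ⟨c, G, hG, rfl⟩ := exists_cubeOf hQ
  obtain ⟨hdis, x0, hx0, hx0'⟩ := ht
  have hno : ¬ ∃ x, ∀ i, |phi G i x - off c G i| < 1 / 2 := by
    rintro ⟨x, hx⟩
    have h1 : x ∈ openOf c G := by
      intro j
      have := hx (Sum.inr j)
      rwa [form_inr] at this
    have h2 : x ∈ interior C0 := by
      rw [C0_eq, interior_A]
      have g := fun k => abs_lt.1 (hx (Sum.inl k))
      have e : ∀ k, off c G (Sum.inl k) = 1 / 2 := fun _ => rfl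
      simp only [phi_inl, e] at g
      exact ⟨⟨by linarith [(g 0).1], by linarith [(g 0).2]⟩,
        ⟨by linarith [(g 1).1], by linarith [(g 1).2]⟩,
        ⟨by linarith [(g 2).1], by linarith [(g 2).2]⟩⟩
    exact Set.disjoint_left.1 hdis (openOf_subset c G h1) h2
  have hφ : ∀ d : E3, d ≠ 0 → ∃ i, phi G i d ≠ 0 := by
    intro d hd0
    by_contra hcon
    push Not at hcon
    apply hd0
    ext k
    exact hcon (Sum.inl k)
  have hne : (Pol (phi G) (off c G)).Nonempty := by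
    refine ⟨x0, fun i => ?_⟩
    rcases i with k | j
    · show |x0 k - 1 / 2| ≤ 1 / 2
      have := hx0' k
      rw [abs_le]; constructor <;> linarith [this.1, this.2]
    · rw [form_inr]
      exact hx0 j
  obtain ⟨x, hx, hcard⟩ := exists_four (phi G) (off c G) hφ hno hne
  have hu : ∀ k, phi G (Sum.inl k) x - off c G (Sum.inl k) = x k - 1 / 2 := fun k => rfl
  have hconf : Conf (fun k => x k - 1 / 2) (fun j => ∑ k, G j k * (x k - c k)) G := by
    refine ⟨fun k => hx (Sum.inl k), fun j => by rw [← form_inr]; exact hx (Sum.inr j), ?_, hG, ?_⟩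
    · have e : (act (phi G) (off c G) x).card
          = ∑ i, if |phi G i x - off c G i| = 1 / 2 then 1 else 0 := by
        unfold act
        rw [Finset.card_filter]
      rw [e, Fintype.sum_sum_type] at hcard
      simp only [form_inr] at hcard
      exact hcard
    · intro w hw
      by_contra hcon
      push Not at hcon
      set p : E3 := pt (w 0 + 1/2) (w 1 + 1/2) (w 2 + 1/2) with hp
      have hpk : ∀ k, p k = w k + 1 / 2 := by
        rw [all3]
        refine ⟨?_, ?_, ?_⟩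
        · rw [hp, pt_zero]
        · rw [hp, pt_one]
        · rw [hp, pt_two]
      have h1 : p ∈ openOf c G := by
        intro j
        have e : ∑ k, G j k * (p k - c k)
            = ∑ k, G j k * (w k - (x k - 1 / 2)) + ∑ k, G j k * (x k - c k) := by
          rw [← Finset.sum_add_distrib]
          exact Finset.sum_congr rfl fun k _ => by rw [hpk]; ring
        rw [e]
        exact hcon j
      have h2 : Wp (p 0 - 1/2) (p 1 - 1/2) (p 2 - 1/2) := by
        rw [hpk, hpk, hpk]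
        simpa using hw
      rcases cover h2 with h3 | ⟨i, h3⟩
      · rw [C0_eq_cubeOf] at h3 hdis
        exact meets_of_mem h3 h1 hdis
      · have hi := hd i
        obtain ⟨c', G', _, e⟩ := exists_cubeOf (unit6 i)
        rw [e] at h3 hi
        exact meets_of_mem h3 h1 hi
  exact no_conf hconf

end Pool.Agent.Cube71
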