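import Pool.Agent.Cube71.Check

/-! Soundness of the kernel checker. -/

namespace Pool.Agent.Cube71

lemma df_cast (p n : ℕ) : ((df p n : ℕ) : ℝ) = |(p : ℝ) - n| := by
  unfold df
  rcases Nat.le_total p n with h | h
  · have h1 : (p : ℝ) ≤ n := by exact_mod_cast h
    have e1 : Nat.sub p n = 0 := Nat.sub_eq_zero_of_le h
    have e2 : ((Nat.sub n p : ℕ) : ℝ) = n - p := Nat.cast_sub h
    rw [e1, abs_of_nonpos (by linarith)]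
    show ((0 + Nat.sub n p : ℕ) : ℝ) = _
    rw [zero_add, e2]; ring
  · have h1 : (n : ℝ) ≤ p := by exact_mod_cast h
    have e1 : Nat.sub n p = 0 := Nat.sub_eq_zero_of_le h
    have e2 : ((Nat.sub p n : ℕ) : ℝ) = p - n := Nat.cast_sub h
    rw [e1, abs_of_nonneg (by linarith)]
    show ((Nat.sub p n + 0 : ℕ) : ℝ) = _
    rw [add_zero, e2]

lemma sub_cast_ge (a b : ℕ) : (a : ℝ) - b ≤ ((Nat.sub a b : ℕ) : ℝ) := by
  have h : a ≤ Nat.sub a b + b := by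
    show a ≤ a - b + b
    omega
  have h' : (a : ℝ) ≤ ((Nat.sub a b : ℕ) : ℝ) + b := by exact_mod_cast h
  linarith

@[simp] lemma cast_add' (a b : ℕ) : ((Nat.add a b : ℕ) : ℝ) = (a : ℝ) + b := Nat.cast_add a b
@[simp] lemma cast_mul' (a b : ℕ) : ((Nat.mul a b : ℕ) : ℝ) = (a : ℝ) * b := Nat.cast_mul a b

lemma mul_ge_neg {x d h : ℝ} (hd : |d| ≤ h) : -(|x| * h) ≤ x * d := by
  have h1 : |x * d| ≤ |x| * h := by
    rw [abs_mul]; exact mul_le_mul_of_nonneg_left hd (abs_nonneg x)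
  linarith [neg_abs_le (x * d)]

/-- The quadratic estimate behind one inequality. -/
lemma core1 {A1 A2 A3 d1 d2 d3 X1 X2 X3 h1 h2 h3 β t g b c D e E R1 R2 : ℝ}
    (hd1 : |d1| ≤ h1) (hd2 : |d2| ≤ h2) (hd3 : |d3| ≤ h3)
    (ht : t = (67108864 + A1 ^ 2 - A2 ^ 2 - A3 ^ 2) * X1 + 2 * (A1 * A2 + 8192 * A3) * X2
      + 2 * (A1 * A3 - 8192 * A2) * X3)
    (hg : g = A1 * X1 + A2 * X2 + A3 * X3)
    (hb : b = -((X1 * A2 - X2 * A1) + 8192 * X3)) (hc : c = (X3 * A1 - X1 * A3) + 8192 * X2)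
    (hD : D = 67108864 + A1 ^ 2 + A2 ^ 2 + A3 ^ 2)
    (hR1 : -(β + X1) ≤ R1) (hR1' : 0 ≤ R1) (hR2 : -(β - X1) ≤ R2) (hR2' : 0 ≤ R2)
    (he : 2 * h1 * (h2 * |X2| + h3 * |X3|) + E ≤ e)
    (h : e + 2 * (|g + β * A1| * h1 + |b + β * A2| * h2 + |c + β * A3| * h3)
      + (R1 * h1 ^ 2 + R2 * (h2 ^ 2 + h3 ^ 2)) < t + β * D) :
    E < (67108864 + (A1 + d1) ^ 2 - (A2 + d2) ^ 2 - (A3 + d3) ^ 2) * X1
      + 2 * ((A1 + d1) * (A2 + d2) + 8192 * (A3 + d3)) * X2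
      + 2 * ((A1 + d1) * (A3 + d3) - 8192 * (A2 + d2)) * X3
      + β * (67108864 + (A1 + d1) ^ 2 + (A2 + d2) ^ 2 + (A3 + d3) ^ 2) := by
  have h0 : 0 ≤ h1 := (abs_nonneg _).trans hd1
  have h0' : 0 ≤ h2 := (abs_nonneg _).trans hd2
  have h0'' : 0 ≤ h3 := (abs_nonneg _).trans hd3
  have a1 := mul_ge_neg (x := g + β * A1) hd1
  have a2 := mul_ge_neg (x := b + β * A2) hd2
  have a3 := mul_ge_neg (x := c + β * A3) hd3
  have s1 : d1 ^ 2 ≤ h1 ^ 2 := sq_le_sq' (by linarith [neg_abs_le d1]) (by linarith [le_abs_self d1])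
  have s2 : d2 ^ 2 ≤ h2 ^ 2 := sq_le_sq' (by linarith [neg_abs_le d2]) (by linarith [le_abs_self d2])
  have s3 : d3 ^ 2 ≤ h3 ^ 2 := sq_le_sq' (by linarith [neg_abs_le d3]) (by linarith [le_abs_self d3])
  have q1 : -(R1 * h1 ^ 2) ≤ (β + X1) * d1 ^ 2 := by nlinarith [sq_nonneg d1]
  have q2 : -(R2 * (h2 ^ 2 + h3 ^ 2)) ≤ (β - X1) * (d2 ^ 2 + d3 ^ 2) := by
    nlinarith [sq_nonneg d2, sq_nonneg d3]
  have m1 : |d1 * d2| ≤ h1 * h2 := by rw [abs_mul]; exact mul_le_mul hd1 hd2 (abs_nonneg _) h0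
  have m2 : |d1 * d3| ≤ h1 * h3 := by rw [abs_mul]; exact mul_le_mul hd1 hd3 (abs_nonneg _) h0
  have m3 := mul_ge_neg (x := X2) m1
  have m4 := mul_ge_neg (x := X3) m2
  have key : (67108864 + (A1 + d1) ^ 2 - (A2 + d2) ^ 2 - (A3 + d3) ^ 2) * X1
      + 2 * ((A1 + d1) * (A2 + d2) + 8192 * (A3 + d3)) * X2
      + 2 * ((A1 + d1) * (A3 + d3) - 8192 * (A2 + d2)) * X3
      + β * (67108864 + (A1 + d1) ^ 2 + (A2 + d2) ^ 2 + (A3 + d3) ^ 2)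
      = t + β * D + 2 * ((g + β * A1) * d1 + (b + β * A2) * d2 + (c + β * A3) * d3)
        + (β + X1) * d1 ^ 2 + (β - X1) * (d2 ^ 2 + d3 ^ 2)
        + 2 * (X2 * (d1 * d2) + X3 * (d1 * d3)) := by
    rw [ht, hg, hb, hc, hD]; ring
  rw [key]
  nlinarith

/-- The variation of the row vector over the cell. -/
lemma core2 {A1 A2 A3 d1 d2 d3 h1 h2 h3 G : ℝ}
    (hd1 : |d1| ≤ h1) (hd2 : |d2| ≤ h2) (hd3 : |d3| ≤ h3)
    (hA1 : |A1| ≤ 8192) (hA2 : |A2| ≤ 8192) (hA3 : |A3| ≤ 8192)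
    (hG : G = 16384 * (h1 + h2 + h3) + (h1 ^ 2 + h2 ^ 2 + h3 ^ 2)) :
    |67108864 + (A1 + d1) ^ 2 - (A2 + d2) ^ 2 - (A3 + d3) ^ 2|
      ≤ |67108864 + A1 ^ 2 - A2 ^ 2 - A3 ^ 2| + G ∧
    |2 * ((A1 + d1) * (A2 + d2) + 8192 * (A3 + d3))| ≤ |2 * (A1 * A2 + 8192 * A3)| + G ∧
    |2 * ((A1 + d1) * (A3 + d3) - 8192 * (A2 + d2))| ≤ |2 * (A1 * A3 - 8192 * A2)| + G := by
  have h0 : 0 ≤ h1 := (abs_nonneg _).trans hd1
  have h0' : 0 ≤ h2 := (abs_nonneg _).trans hd2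
  have h0'' : 0 ≤ h3 := (abs_nonneg _).trans hd3
  have b : ∀ {x d h : ℝ}, |x| ≤ 8192 → |d| ≤ h → |x * d| ≤ 8192 * h := by
    intro x d h hx hd
    rw [abs_mul]; exact mul_le_mul hx hd (abs_nonneg _) (by norm_num)
  have s1 : d1 ^ 2 ≤ h1 ^ 2 := sq_le_sq' (by linarith [neg_abs_le d1]) (by linarith [le_abs_self d1])
  have s2 : d2 ^ 2 ≤ h2 ^ 2 := sq_le_sq' (by linarith [neg_abs_le d2]) (by linarith [le_abs_self d2])
  have s3 : d3 ^ 2 ≤ h3 ^ 2 := sq_le_sq' (by linarith [neg_abs_le d3]) (by linarith [le_abs_self d3])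
  have p1 := abs_le.1 (b hA1 hd1)
  have p2 := abs_le.1 (b hA2 hd2)
  have p3 := abs_le.1 (b hA3 hd3)
  have p4 := abs_le.1 (b hA1 hd2)
  have p5 := abs_le.1 (b hA2 hd1)
  have p6 := abs_le.1 (b hA1 hd3)
  have p7 := abs_le.1 (b hA3 hd1)
  have e1 := abs_le.1 hd1
  have e2 := abs_le.1 hd2
  have e3 := abs_le.1 hd3
  have t : ∀ {x y z : ℝ}, |x - y| ≤ z → |x| ≤ |y| + z := by
    intro x y z h
    have := abs_sub_abs_le_abs_sub x y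
    linarith
  refine ⟨t ?_, t ?_, t ?_⟩
  · rw [hG, abs_le]; constructor <;> nlinarith [sq_nonneg d1, sq_nonneg d2, sq_nonneg d3]
  · rw [hG, abs_le]; constructor <;> nlinarith [sq_nonneg (d1 + d2), sq_nonneg (d1 - d2), sq_nonneg h3]
  · rw [hG, abs_le]; constructor <;> nlinarith [sq_nonneg (d1 + d3), sq_nonneg (d1 - d3), sq_nonneg h2]

lemma side_spec {tp tn gp gn bp bn cp cn a1 a2 a3 h1 h2 h3 w y be D e : ℕ}
    (h : side tp tn gp gn bp bn cp cn a1 a2 a3 h1 h2 h3 w y be D e = true) :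
    (e : ℝ) + 2 * (|((gp : ℝ) - gn) + be * ((a1 : ℝ) - 8192)| * h1
        + |((bp : ℝ) - bn) + be * ((a2 : ℝ) - 8192)| * h2
        + |((cp : ℝ) - cn) + be * ((a3 : ℝ) - 8192)| * h3)
      + (((Nat.sub y (Nat.add be w) : ℕ) : ℝ) * (h1 : ℝ) ^ 2
        + ((Nat.sub w (Nat.add be y) : ℕ) : ℝ) * ((h2 : ℝ) ^ 2 + (h3 : ℝ) ^ 2))
      < ((tp : ℝ) - tn) + be * D := by
  unfold side at h
  rw [Nat.blt_eq] at h
  have h' := (Nat.cast_lt (α := ℝ)).2 h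
  simp only [cast_add', cast_mul', df_cast] at h'
  push_cast at h'
  have e1 : ((gp : ℝ) + be * a1) - (gn + be * 8192) = ((gp : ℝ) - gn) + be * ((a1 : ℝ) - 8192) := by
    ring
  have e2 : ((bp : ℝ) + be * a2) - (bn + be * 8192) = ((bp : ℝ) - bn) + be * ((a2 : ℝ) - 8192) := by
    ring
  have e3 : ((cp : ℝ) + be * a3) - (cn + be * 8192) = ((cp : ℝ) - cn) + be * ((a3 : ℝ) - 8192) := by
    ring
  rw [e1, e2, e3] at h'
  linarith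

/-- denominator -/
def Dr (a1 a2 a3 : ℝ) : ℝ := 67108864 + a1 ^ 2 + a2 ^ 2 + a3 ^ 2

/-- numerator of the inner product of the first frame vector with `(x1,x2,x3)` -/
def Nr (a1 a2 a3 x1 x2 x3 : ℝ) : ℝ :=
  (67108864 + a1 ^ 2 - a2 ^ 2 - a3 ^ 2) * x1 + 2 * (a1 * a2 + 8192 * a3) * x2
    + 2 * (a1 * a3 - 8192 * a2) * x3

lemma Nr_neg (a1 a2 a3 x1 x2 x3 : ℝ) : Nr a1 a2 a3 (-x1) (-x2) (-x3) = - Nr a1 a2 a3 x1 x2 x3 := by
  unfold Nr; ring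

lemma dU_ge {a1 a2 a3 k1 k2 k3 D G : ℕ} {A1 A2 A3 : ℝ} (hA1 : A1 = (a1 : ℝ) - 8192)
    (hA2 : A2 = (a2 : ℝ) - 8192) (hA3 : A3 = (a3 : ℝ) - 8192)
    (hD : (D : ℝ) = 67108864 + A1 ^ 2 + A2 ^ 2 + A3 ^ 2) :
    (k1 : ℝ) * (|67108864 + A1 ^ 2 - A2 ^ 2 - A3 ^ 2| + G)
      + k2 * (|2 * (A1 * A2 + 8192 * A3)| + G) + k3 * (|2 * (A1 * A3 - 8192 * A2)| + G)
      ≤ ((dU a1 a2 a3 k1 k2 k3 D G : ℕ) : ℝ) := by
  have c : ∀ (k m : ℕ), ((cond (Nat.beq k 0) 0 (Nat.mul k m) : ℕ) : ℝ) = (k : ℝ) * m := by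
    intro k m
    cases k with
    | zero => simp
    | succ n =>
      have : Nat.beq (n + 1) 0 = false := rfl
      rw [this]
      exact cast_mul' _ _
  unfold dU
  rw [cast_add', cast_add', c, c, c]
  simp only [cast_add', cast_mul', df_cast]
  push_cast
  have e1 : (268435456 : ℝ) + 2 * ((a1 : ℝ) * a1) - (D + 32768 * a1)
      = 67108864 + A1 ^ 2 - A2 ^ 2 - A3 ^ 2 := by
    rw [hD, hA1]; ring
  have e2 : (2 : ℝ) * |(a1 : ℝ) * a2 + 8192 * a3 - 8192 * (a1 + a2)|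
      = |2 * (A1 * A2 + 8192 * A3)| := by
    rw [abs_mul, abs_of_pos (by norm_num : (0 : ℝ) < 2)]
    congr 2
    rw [hA1, hA2, hA3]; ring
  have e3 : (2 : ℝ) * |(a1 : ℝ) * a3 + 134217728 - 8192 * (a1 + a2 + a3)|
      = |2 * (A1 * A3 - 8192 * A2)| := by
    rw [abs_mul, abs_of_pos (by norm_num : (0 : ℝ) < 2)]
    congr 2
    rw [hA1, hA2, hA3]; ring
  rw [e1, e2, e3]

/-- Specification of `face`: for all parameters in the cell the point is strictly between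
the two faces. -/
lemma face_spec {gp gn bp bn cp cn kp kn a1 a2 a3 h1 h2 h3 k1 k2 k3 w y z2 z3 lo l D G : ℕ}
    {A1 A2 A3 X1 X2 X3 α1 α2 α3 x1 x2 x3 ν : ℝ}
    (hA1 : A1 = (a1 : ℝ) - 8192) (hA2 : A2 = (a2 : ℝ) - 8192) (hA3 : A3 = (a3 : ℝ) - 8192)
    (hX1 : X1 = (w : ℝ) - y)
    (hg : (gp : ℝ) - gn = A1 * X1 + A2 * X2 + A3 * X3)
    (hb : (bp : ℝ) - bn = -((X1 * A2 - X2 * A1) + 8192 * X3))
    (hc : (cp : ℝ) - cn = (X3 * A1 - X1 * A3) + 8192 * X2)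
    (hk : (kp : ℝ) - kn = X2 * A3 - X3 * A2)
    (hD : (D : ℝ) = 67108864 + A1 ^ 2 + A2 ^ 2 + A3 ^ 2)
    (hz2 : (z2 : ℝ) = |X2|) (hz3 : (z3 : ℝ) = |X3|)
    (hG : (G : ℝ) = 16384 * ((h1 : ℝ) + h2 + h3) + ((h1 : ℝ) ^ 2 + (h2 : ℝ) ^ 2 + (h3 : ℝ) ^ 2))
    (bA1 : |A1| ≤ 8192) (bA2 : |A2| ≤ 8192) (bA3 : |A3| ≤ 8192)
    (d1 : |α1 - A1| ≤ h1) (d2 : |α2 - A2| ≤ h2) (d3 : |α3 - A3| ≤ h3)
    (e1 : |x1 - X1| ≤ k1) (e2 : |x2 - X2| ≤ k2) (e3 : |x3 - X3| ≤ k3)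
    (n0 : (lo : ℝ) ≤ ν + 128) (n1 : ν + 128 ≤ lo + 2 * l) (n2 : ν ≤ 128)
    (h : face gp gn bp bn cp cn kp kn a1 a2 a3 h1 h2 h3 k1 k2 k3 w y z2 z3 lo l D G = true) :
    |Nr α1 α2 α3 x1 x2 x3 + ν * Dr α1 α2 α3| < 128 * Dr α1 α2 α3 := by
  unfold face face2 at h
  rw [Bool.and_eq_true] at h
  obtain ⟨hlo, hhi⟩ := h
  have s1 := side_spec hlo
  have s2 := side_spec hhi
  simp only [cast_add', cast_mul'] at s1 s2
  push_cast at s1 s2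
  rw [← hA1, ← hA2, ← hA3] at s1 s2
  have hDU := dU_ge (k1 := k1) (k2 := k2) (k3 := k3) (G := G) hA1 hA2 hA3 hD
  set E : ℝ := ((dU a1 a2 a3 k1 k2 k3 D G : ℕ) : ℝ) with hE
  have ht1 : (134217728 * (w : ℝ) + D * y + (2 * ((a1 : ℝ) * gp + 8192 * gn) + 16384 * kp))
      - (134217728 * (y : ℝ) + D * w + (2 * ((a1 : ℝ) * gn + 8192 * gp) + 16384 * kn))
      = Nr A1 A2 A3 X1 X2 X3 := by
    have : (134217728 * (w : ℝ) + D * y + (2 * ((a1 : ℝ) * gp + 8192 * gn) + 16384 * kp))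
      - (134217728 * (y : ℝ) + D * w + (2 * ((a1 : ℝ) * gn + 8192 * gp) + 16384 * kn))
      = (134217728 - (D : ℝ)) * (w - y) + 2 * ((a1 : ℝ) - 8192) * (gp - gn)
        + 16384 * (kp - kn) := by ring
    rw [this, hg, hk, ← hA1, ← hX1, hD]
    unfold Nr; ring
  have hDr : Dr α1 α2 α3 = 67108864 + (A1 + (α1 - A1)) ^ 2 + (A2 + (α2 - A2)) ^ 2
      + (A3 + (α3 - A3)) ^ 2 := by unfold Dr; ring
  have hDpos : 0 < Dr α1 α2 α3 := by unfold Dr; positivity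
  have c1 := core1 (A1 := A1) (A2 := A2) (A3 := A3) (X1 := X1) (X2 := X2) (X3 := X3)
    (β := (lo : ℝ)) (E := E) d1 d2 d3 rfl rfl rfl rfl hD
    (R1 := ((Nat.sub y (Nat.add lo w) : ℕ) : ℝ)) (R2 := ((Nat.sub w (Nat.add lo y) : ℕ) : ℝ))
    (by have := sub_cast_ge y (Nat.add lo w); rw [cast_add'] at this; rw [hX1]; linarith)
    (Nat.cast_nonneg _)
    (by have := sub_cast_ge w (Nat.add lo y); rw [cast_add'] at this; rw [hX1]; linarith)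
    (Nat.cast_nonneg _)
    (e := 2 * (h1 : ℝ) * (h2 * z2 + h3 * z3) + E)
    (by rw [hz2, hz3])
    (by rw [← hg, ← hb, ← hc]; rw [ht1] at s1; unfold Nr at s1; linarith)
  set be : ℕ := Nat.sub 256 (Nat.add lo (Nat.mul 2 l)) with hbe
  have c2 := core1 (A1 := A1) (A2 := A2) (A3 := A3) (X1 := -X1) (X2 := -X2) (X3 := -X3)
    (β := (be : ℝ)) (E := E) d1 d2 d3 rfl rfl rfl rfl hD
    (R1 := ((Nat.sub w (Nat.add be y) : ℕ) : ℝ)) (R2 := ((Nat.sub y (Nat.add be w) : ℕ) : ℝ))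
    (by have := sub_cast_ge w (Nat.add be y); rw [cast_add'] at this; rw [hX1]; linarith)
    (Nat.cast_nonneg _)
    (by have := sub_cast_ge y (Nat.add be w); rw [cast_add'] at this; rw [hX1]; linarith)
    (Nat.cast_nonneg _)
    (e := 2 * (h1 : ℝ) * (h2 * z2 + h3 * z3) + E)
    (by rw [abs_neg, abs_neg, hz2, hz3])
    (by
      have g1 : A1 * -X1 + A2 * -X2 + A3 * -X3 = (gn : ℝ) - gp := by linarith
      have g2 : -((-X1 * A2 - -X2 * A1) + 8192 * -X3) = (bn : ℝ) - bp := by linarith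
      have g3 : (-X3 * A1 - -X1 * A3) + 8192 * -X2 = (cn : ℝ) - cp := by linarith
      rw [g1, g2, g3]
      unfold Nr at ht1
      linarith)
  obtain ⟨v1, v2, v3⟩ := core2 (A1 := A1) (A2 := A2) (A3 := A3) (G := (G : ℝ)) d1 d2 d3
    bA1 bA2 bA3 hG
  have m : ∀ {p q r k : ℝ}, |p| ≤ q → |r| ≤ k → |p * r| ≤ k * q := by
    intro p q r k h1 h2
    rw [abs_mul, mul_comm]
    exact mul_le_mul h2 h1 (abs_nonneg _) ((abs_nonneg _).trans h2)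
  have w1 := abs_le.1 (m v1 e1)
  have w2 := abs_le.1 (m v2 e2)
  have w3 := abs_le.1 (m v3 e3)
  have hbν : (be : ℝ) ≤ 128 - ν := by
    rcases Nat.le_total 256 (Nat.add lo (Nat.mul 2 l)) with hh | hh
    · have : be = 0 := Nat.sub_eq_zero_of_le hh
      rw [this]; push_cast; linarith
    · have : (be : ℝ) = 256 - (lo + 2 * l) := by
        rw [hbe]
        have := Nat.cast_sub (R := ℝ) hh
        simp only [cast_add', cast_mul'] at this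
        push_cast at this
        exact this
      linarith
  have hNr : Nr α1 α2 α3 x1 x2 x3 =
      ((67108864 + (A1 + (α1 - A1)) ^ 2 - (A2 + (α2 - A2)) ^ 2 - (A3 + (α3 - A3)) ^ 2) * X1
      + 2 * ((A1 + (α1 - A1)) * (A2 + (α2 - A2)) + 8192 * (A3 + (α3 - A3))) * X2
      + 2 * ((A1 + (α1 - A1)) * (A3 + (α3 - A3)) - 8192 * (A2 + (α2 - A2))) * X3)
      + ((67108864 + (A1 + (α1 - A1)) ^ 2 - (A2 + (α2 - A2)) ^ 2 - (A3 + (α3 - A3)) ^ 2)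
          * (x1 - X1)
      + 2 * ((A1 + (α1 - A1)) * (A2 + (α2 - A2)) + 8192 * (A3 + (α3 - A3))) * (x2 - X2)
      + 2 * ((A1 + (α1 - A1)) * (A3 + (α3 - A3)) - 8192 * (A2 + (α2 - A2))) * (x3 - X3)) := by
    unfold Nr; ring
  rw [← hDr] at c1 c2
  have k1 : (lo : ℝ) * Dr α1 α2 α3 ≤ (ν + 128) * Dr α1 α2 α3 :=
    mul_le_mul_of_nonneg_right n0 hDpos.le
  have k2 : (be : ℝ) * Dr α1 α2 α3 ≤ (128 - ν) * Dr α1 α2 α3 :=
    mul_le_mul_of_nonneg_right hbν hDpos.le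
  rw [abs_lt]
  constructor
  · rw [hNr]; linarith [w1.1, w2.1, w3.1]
  · rw [hNr]; linarith [w1.2, w2.2, w3.2]

/-- The union of the central cube (centred at the origin) and of the six cubes. -/
def Wp (x y z : ℝ) : Prop :=
  (|x| ≤ 1/2 ∧ |y| ≤ 1/2 ∧ |z| ≤ 1/2) ∨
  (1/2 ≤ |z| ∧ |z| ≤ 3/2 ∧ 2 * (|x| + |y|) ^ 2 ≤ 1) ∨
  (|(|x| + |y| - 2)| ≤ 1 ∧ 2 * (|x| - |y|) ^ 2 ≤ 1 ∧
    2 * |z| ^ 2 ≤ (1 - |(|x| + |y| - 2)|) ^ 2)

lemma ble_cast {a b : ℕ} (h : Nat.ble a b = true) : (a : ℝ) ≤ b := by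
  exact_mod_cast Nat.le_of_ble_eq_true h

lemma mem3_spec {X Y Z : ℕ} {x y z : ℝ} (hx : (X : ℝ) = |x|) (hy : (Y : ℝ) = |y|)
    (hz : (Z : ℝ) = |z|) (h : mem3 X Y Z = true) : Wp (x / 256) (y / 256) (z / 256) := by
  have e : ∀ t : ℝ, |t / 256| = |t| / 256 := fun t => by
    rw [abs_div, abs_of_pos (by norm_num : (0 : ℝ) < 256)]
  unfold Wp
  rw [e, e, e, ← hx, ← hy, ← hz]
  unfold mem3 at h
  simp only [Bool.or_eq_true, Bool.and_eq_true] at h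
  rcases h with (⟨⟨h1, h2⟩, h3⟩ | ⟨⟨h1, h2⟩, h3⟩) | ⟨⟨h1, h2⟩, h3⟩
  · left
    have h1 := ble_cast h1
    have h2 := ble_cast h2
    have h3 := ble_cast h3
    push_cast at h1 h2 h3
    refine ⟨?_, ?_, ?_⟩ <;> linarith
  · right; left
    have h1 := ble_cast h1
    have h2 := ble_cast h2
    have h3 := ble_cast h3
    simp only [cast_add', cast_mul'] at h1 h2 h3
    push_cast at h1 h2 h3
    refine ⟨by linarith, by linarith, by nlinarith⟩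
  · right; right
    have h1' := Nat.le_of_ble_eq_true h1
    have h1 := ble_cast h1
    have h2 := ble_cast h2
    have h3 := ble_cast h3
    have e3 : ((Nat.sub 256 (df (Nat.add X Y) 512) : ℕ) : ℝ)
        = 256 - |((X : ℝ) + Y) - 512| := by
      have := Nat.cast_sub (R := ℝ) h1'
      simp only [df_cast, cast_add'] at this
      push_cast at this
      exact this
    simp only [cast_mul', df_cast, cast_add', e3] at h1 h2 h3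
    push_cast at h1 h2 h3
    have e4 : |((X : ℝ) / 256 + Y / 256 - 2)| = |((X : ℝ) + Y) - 512| / 256 := by
      rw [← abs_of_pos (by norm_num : (0 : ℝ) < 256), ← abs_div,
        abs_of_pos (by norm_num : (0 : ℝ) < 256)]
      congr 1; ring
    have e5 : ((X : ℝ) / 256 - Y / 256) ^ 2 = (|(X : ℝ) - Y| * |(X : ℝ) - Y|) / 65536 := by
      rw [abs_mul_abs_self]; ring
    rw [e4, e5]
    refine ⟨by linarith, by linarith, ?_⟩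
    nlinarith

/-- For the parameters `(a, m, n)` (scaled) the unit cube contains a point of the union of the
cubes in its interior. -/
def Killed (a1 a2 a3 m1 m2 m3 n1 n2 n3 : ℝ) : Prop :=
  ∃ x y z : ℝ, Wp (x / 256) (y / 256) (z / 256) ∧
    |Nr a1 a2 a3 (x - m1) (y - m2) (z - m3) + n1 * Dr a1 a2 a3| < 128 * Dr a1 a2 a3 ∧
    |Nr a2 a3 a1 (y - m2) (z - m3) (x - m1) + n2 * Dr a1 a2 a3| < 128 * Dr a1 a2 a3 ∧
    |Nr a3 a1 a2 (z - m3) (x - m1) (y - m2) + n3 * Dr a1 a2 a3| < 128 * Dr a1 a2 a3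

lemma D_cast (a1 a2 a3 : ℕ) :
    ((Nat.sub (Nat.add (Nat.add (Nat.add (Nat.mul a1 a1) (Nat.mul a2 a2)) (Nat.mul a3 a3))
      268435456) (Nat.mul 16384 (Nat.add (Nat.add a1 a2) a3)) : ℕ) : ℝ)
      = 67108864 + ((a1 : ℝ) - 8192) ^ 2 + ((a2 : ℝ) - 8192) ^ 2 + ((a3 : ℝ) - 8192) ^ 2 := by
  have h : Nat.mul 16384 (Nat.add (Nat.add a1 a2) a3) ≤
      Nat.add (Nat.add (Nat.add (Nat.mul a1 a1) (Nat.mul a2 a2)) (Nat.mul a3 a3)) 268435456 := by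
    rw [← Nat.cast_le (α := ℝ)]
    simp only [cast_add', cast_mul']
    push_cast
    nlinarith [sq_nonneg ((a1 : ℝ) - 8192), sq_nonneg ((a2 : ℝ) - 8192),
      sq_nonneg ((a3 : ℝ) - 8192)]
  have := Nat.cast_sub (R := ℝ) h
  simp only [cast_add', cast_mul'] at this
  push_cast at this
  refine Eq.trans this ?_
  ring

lemma kill_spec {w1 w2 w3 p1 h1 p2 h2 p3 h3 u1 k1 u2 k2 u3 k3 v1 l1 v2 l2 v3 l3 : ℕ}
    {a1 a2 a3 m1 m2 m3 n1 n2 n3 : ℝ}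
    (b1 : p1 + 2 * h1 ≤ 16384) (b2 : p2 + 2 * h2 ≤ 16384) (b3 : p3 + 2 * h3 ≤ 16384)
    (ha1 : (p1 : ℝ) ≤ a1 + 8192 ∧ a1 + 8192 ≤ p1 + 2 * h1)
    (ha2 : (p2 : ℝ) ≤ a2 + 8192 ∧ a2 + 8192 ≤ p2 + 2 * h2)
    (ha3 : (p3 : ℝ) ≤ a3 + 8192 ∧ a3 + 8192 ≤ p3 + 2 * h3)
    (hm1 : (u1 : ℝ) ≤ m1 ∧ m1 ≤ u1 + 2 * k1) (hm2 : (u2 : ℝ) ≤ m2 ∧ m2 ≤ u2 + 2 * k2)
    (hm3 : (u3 : ℝ) ≤ m3 ∧ m3 ≤ u3 + 2 * k3)
    (hn1 : (v1 : ℝ) ≤ n1 + 128 ∧ n1 + 128 ≤ v1 + 2 * l1)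
    (hn2 : (v2 : ℝ) ≤ n2 + 128 ∧ n2 + 128 ≤ v2 + 2 * l2)
    (hn3 : (v3 : ℝ) ≤ n3 + 128 ∧ n3 + 128 ≤ v3 + 2 * l3)
    (hn1' : n1 ≤ 128) (hn2' : n2 ≤ 128) (hn3' : n3 ≤ 128)
    (h : kill w1 w2 w3 p1 h1 p2 h2 p3 h3 u1 k1 u2 k2 u3 k3 v1 l1 v2 l2 v3 l3 = true) :
    Killed a1 a2 a3 m1 m2 m3 n1 n2 n3 := by
  unfold kill at h
  rw [Bool.and_eq_true] at h
  obtain ⟨hm, hk⟩ := h
  refine ⟨(w1 : ℝ) - 1024, (w2 : ℝ) - 1024, (w3 : ℝ) - 1024,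
    mem3_spec (df_cast _ _) (df_cast _ _) (df_cast _ _) hm, ?_⟩
  unfold kill1 kill2 kill3 at hk
  rw [Bool.and_eq_true, Bool.and_eq_true] at hk
  obtain ⟨⟨f1, f2⟩, f3⟩ := hk
  have B : ∀ {p h : ℕ}, p + 2 * h ≤ 16384 → |(((Nat.add p h : ℕ)) : ℝ) - 8192| ≤ 8192 := by
    intro p h hb
    have h1 : (p : ℝ) + 2 * h ≤ 16384 := by exact_mod_cast hb
    have h2 : (0 : ℝ) ≤ p := Nat.cast_nonneg _
    have h3 : (0 : ℝ) ≤ h := Nat.cast_nonneg _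
    rw [cast_add', abs_le]
    constructor <;> linarith
  have Dd : ∀ {p h : ℕ} {a : ℝ}, ((p : ℝ) ≤ a + 8192 ∧ a + 8192 ≤ p + 2 * h) →
      |a - ((((Nat.add p h : ℕ)) : ℝ) - 8192)| ≤ h := by
    intro p h a hh
    rw [cast_add', abs_le]
    constructor <;> linarith [hh.1, hh.2]
  have Ed : ∀ {w u k : ℕ} {m : ℝ}, ((u : ℝ) ≤ m ∧ m ≤ u + 2 * k) →
      |((w : ℝ) - 1024 - m) - ((w : ℝ) - ((Nat.add 1024 (Nat.add u k) : ℕ) : ℝ))| ≤ k := by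
    intro w u k m hh
    rw [cast_add', cast_add', abs_le]
    push_cast
    constructor <;> linarith [hh.1, hh.2]
  have DD := D_cast (Nat.add p1 h1) (Nat.add p2 h2) (Nat.add p3 h3)
  have r1 := face_spec (A1 := (((Nat.add p1 h1 : ℕ)) : ℝ) - 8192)
    (A2 := (((Nat.add p2 h2 : ℕ)) : ℝ) - 8192) (A3 := (((Nat.add p3 h3 : ℕ)) : ℝ) - 8192)
    (X1 := (w1 : ℝ) - ((Nat.add 1024 (Nat.add u1 k1) : ℕ) : ℝ))
    (X2 := (w2 : ℝ) - ((Nat.add 1024 (Nat.add u2 k2) : ℕ) : ℝ))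
    (X3 := (w3 : ℝ) - ((Nat.add 1024 (Nat.add u3 k3) : ℕ) : ℝ))
    rfl rfl rfl rfl
    (by simp only [cast_add', cast_mul']; push_cast; ring)
    (by simp only [cast_add', cast_mul']; push_cast; ring)
    (by simp only [cast_add', cast_mul']; push_cast; ring)
    (by simp only [cast_add', cast_mul']; push_cast; ring)
    DD (df_cast _ _) (df_cast _ _)
    (by simp only [cast_add', cast_mul']; push_cast; ring)
    (B b1) (B b2) (B b3) (Dd ha1) (Dd ha2) (Dd ha3) (Ed hm1) (Ed hm2) (Ed hm3)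
    hn1.1 hn1.2 hn1' f1
  have r2 := face_spec (A1 := (((Nat.add p2 h2 : ℕ)) : ℝ) - 8192)
    (A2 := (((Nat.add p3 h3 : ℕ)) : ℝ) - 8192) (A3 := (((Nat.add p1 h1 : ℕ)) : ℝ) - 8192)
    (X1 := (w2 : ℝ) - ((Nat.add 1024 (Nat.add u2 k2) : ℕ) : ℝ))
    (X2 := (w3 : ℝ) - ((Nat.add 1024 (Nat.add u3 k3) : ℕ) : ℝ))
    (X3 := (w1 : ℝ) - ((Nat.add 1024 (Nat.add u1 k1) : ℕ) : ℝ))
    rfl rfl rfl rfl
    (by simp only [cast_add', cast_mul']; push_cast; ring)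
    (by simp only [cast_add', cast_mul']; push_cast; ring)
    (by simp only [cast_add', cast_mul']; push_cast; ring)
    (by simp only [cast_add', cast_mul']; push_cast; ring)
    (by rw [DD]; ring) (df_cast _ _) (df_cast _ _)
    (by simp only [cast_add', cast_mul']; push_cast; ring)
    (B b2) (B b3) (B b1) (Dd ha2) (Dd ha3) (Dd ha1) (Ed hm2) (Ed hm3) (Ed hm1)
    hn2.1 hn2.2 hn2' f2
  have r3 := face_spec (A1 := (((Nat.add p3 h3 : ℕ)) : ℝ) - 8192)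
    (A2 := (((Nat.add p1 h1 : ℕ)) : ℝ) - 8192) (A3 := (((Nat.add p2 h2 : ℕ)) : ℝ) - 8192)
    (X1 := (w3 : ℝ) - ((Nat.add 1024 (Nat.add u3 k3) : ℕ) : ℝ))
    (X2 := (w1 : ℝ) - ((Nat.add 1024 (Nat.add u1 k1) : ℕ) : ℝ))
    (X3 := (w2 : ℝ) - ((Nat.add 1024 (Nat.add u2 k2) : ℕ) : ℝ))
    rfl rfl rfl rfl
    (by simp only [cast_add', cast_mul']; push_cast; ring)
    (by simp only [cast_add', cast_mul']; push_cast; ring)
    (by simp only [cast_add', cast_mul']; push_cast; ring)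
    (by simp only [cast_add', cast_mul']; push_cast; ring)
    (by rw [DD]; ring) (df_cast _ _) (df_cast _ _)
    (by simp only [cast_add', cast_mul']; push_cast; ring)
    (B b3) (B b1) (B b2) (Dd ha3) (Dd ha1) (Dd ha2) (Ed hm3) (Ed hm1) (Ed hm2)
    hn3.1 hn3.2 hn3' f3
  have eD2 : Dr a2 a3 a1 = Dr a1 a2 a3 := by unfold Dr; ring
  have eD3 : Dr a3 a1 a2 = Dr a1 a2 a3 := by unfold Dr; ring
  rw [eD2] at r2
  rw [eD3] at r3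
  exact ⟨r1, r2, r3⟩

end Pool.Agent.Cube71
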